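import Mathlib
import Pool.Agent.W5h49.EC.MolJC2
import Pool.Agent.W5h49.EC.Cube

/-!
# Mollified `L¹`-continuous families are jointly smooth
-/

set_option autoImplicit false

open scoped ContDiff Topology Convolution
open MeasureTheory Set Metric

namespace Pool.Agent.V5helper82.SB

open Pool.Agent.W71.EC Pool.Agent.W5h83.HG Pool.Agent.W5h49.EC

variable {n : ℕ}

attribute [local instance] CubeAux.haar

instance negInv : (volume : Measure (R2 n)).IsNegInvariant :=
  @Measure.IsAddHaarMeasure.isNegInvariant_of_innerRegular _ _ _ _ _ _ _ CubeAux.haar _ inferInstance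

section

variable {P : Type} [TopologicalSpace P]

theorem conv_le {F G H : Type} [NormedAddCommGroup F] [NormedSpace ℝ F]
    [NormedAddCommGroup G] [NormedSpace ℝ G] [NormedAddCommGroup H] [NormedSpace ℝ H]
    (L : G →L[ℝ] F →L[ℝ] H) {K : R2 n → G} {B : ℝ} (hB : ∀ x, ‖K x‖ ≤ B)
    {g : R2 n → F} (hg : Integrable g) (x : R2 n) :
    ‖(K ⋆[L, volume] g) x‖ ≤ ‖L‖ * B * ∫ z, ‖g z‖ := by
  have h0 : 0 ≤ B := (norm_nonneg _).trans (hB 0)
  unfold convolution
  have h1 : ∫ z, ‖g z‖ = ∫ t, ‖g (x - t)‖ := by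
    rw [integral_sub_left_eq_self (fun z => ‖g z‖) volume x]
  have h2 : Integrable (fun t => ‖g (x - t)‖) := (hg.norm.comp_sub_left x)
  rw [h1, ← integral_const_mul]
  refine norm_integral_le_of_norm_le (h2.const_mul _) (Filter.Eventually.of_forall fun t => ?_)
  calc ‖L (K t) (g (x - t))‖ ≤ ‖L‖ * ‖K t‖ * ‖g (x - t)‖ := L.le_opNorm₂ _ _
    _ ≤ ‖L‖ * B * ‖g (x - t)‖ := by
        gcongr
        exact hB t

/-- convolutions of a smooth kernel with an `L¹`-continuous family -/
theorem JC_conv (k : ℕ) : ∀ {F G H : Type} [NormedAddCommGroup F] [NormedSpace ℝ F]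
    [NormedAddCommGroup G] [NormedSpace ℝ G] [NormedAddCommGroup H] [NormedSpace ℝ H]
    (L : G →L[ℝ] F →L[ℝ] H) {K : R2 n → G}, ContDiff ℝ ∞ K → HasCompactSupport K →
    ∀ {h : P → R2 n → F}, (∀ p, Integrable (h p)) →
    (∀ p₀, Filter.Tendsto (fun p => ∫ z, ‖h p z - h p₀ z‖) (𝓝 p₀) (𝓝 0)) →
    JC k H (fun p x => (K ⋆[L, volume] h p) x) := by
  have base : ∀ {F G H : Type} [NormedAddCommGroup F] [NormedSpace ℝ F]
    [NormedAddCommGroup G] [NormedSpace ℝ G] [NormedAddCommGroup H] [NormedSpace ℝ H]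
    (L : G →L[ℝ] F →L[ℝ] H) {K : R2 n → G}, ContDiff ℝ ∞ K → HasCompactSupport K →
    ∀ {h : P → R2 n → F}, (∀ p, Integrable (h p)) →
    (∀ p₀, Filter.Tendsto (fun p => ∫ z, ‖h p z - h p₀ z‖) (𝓝 p₀) (𝓝 0)) →
    Continuous (Function.uncurry fun p x => (K ⋆[L, volume] h p) x) := by
    intro F G H _ _ _ _ _ _ L K hK hcK h hi hh
    obtain ⟨B, hB⟩ := hcK.exists_bound_of_continuous hK.continuous
    have hce : ∀ p x, ConvolutionExistsAt K (h p) x L volume := fun p x =>
      hcK.convolutionExists_left L hK.continuous (hi p).locallyIntegrable x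
    rw [continuous_iff_continuousAt]
    rintro ⟨p₀, x₀⟩
    have h1 : Filter.Tendsto (fun q : P × R2 n => (K ⋆[L, volume] h p₀) q.2) (𝓝 (p₀, x₀))
        (𝓝 ((K ⋆[L, volume] h p₀) x₀)) := by
      have : Continuous (K ⋆[L, volume] h p₀) :=
        hcK.continuous_convolution_left L hK.continuous (hi p₀).locallyIntegrable
      exact (this.tendsto x₀).comp (continuous_snd.tendsto (p₀, x₀))
    have h2 : Filter.Tendsto (fun q : P × R2 n => (K ⋆[L, volume] h q.1) q.2 -
        (K ⋆[L, volume] h p₀) q.2) (𝓝 (p₀, x₀)) (𝓝 0) := by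
      refine squeeze_zero_norm (a := fun q : P × R2 n => ‖L‖ * B * ∫ z, ‖h q.1 z - h p₀ z‖) ?_ ?_
      · rintro ⟨p, x⟩
        simp only
        have e : (K ⋆[L, volume] h p) x - (K ⋆[L, volume] h p₀) x =
            (K ⋆[L, volume] (fun z => h p z - h p₀ z)) x := by
          unfold convolution
          rw [← integral_sub (hce p x) (hce p₀ x)]
          refine integral_congr_ae (Filter.Eventually.of_forall fun t => ?_)
          simp only [map_sub]
        rw [e]
        exact conv_le L hB ((hi p).sub (hi p₀)) x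
      · have h3 := ((hh p₀).comp (continuous_fst.tendsto ((p₀, x₀) : P × R2 n))).const_mul
          (‖L‖ * B)
        rw [mul_zero] at h3
        exact h3
    have h3 := h2.add h1
    rw [zero_add] at h3
    refine h3.congr fun q => ?_
    simp [Function.uncurry]
  induction k with
  | zero =>
    intro F G H _ _ _ _ _ _ L K hK hcK h hi hh
    exact base L hK hcK hi hh
  | succ k ih =>
    intro F G H _ _ _ _ _ _ L K hK hcK h hi hh
    have hd : ∀ p x, HasFDerivAt (K ⋆[L, volume] h p)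
        ((fderiv ℝ K ⋆[L.precompL (R2 n), volume] h p) x) x := fun p x =>
      hcK.hasFDerivAt_convolution_left L (hK.of_le (by exact_mod_cast le_top))
        (hi p).locallyIntegrable x
    refine ⟨base L hK hcK hi hh, fun p x => (hd p x).differentiableAt, ?_⟩
    have e : (fun p x => fderiv ℝ (fun x => (K ⋆[L, volume] h p) x) x) =
        fun p x => (fderiv ℝ K ⋆[L.precompL (R2 n), volume] h p) x := by
      funext p x
      exact (hd p x).fderiv
    rw [e]
    exact ih (L.precompL (R2 n)) (hK.fderiv_right (m := ∞) (by simp)) (hcK.fderiv ℝ) hi hh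

end

/-- the mollified displacement at a positive scale is a convolution -/
theorem HH_conv {η : R2 n → ℝ} {R : ℝ} (hR : 0 < R) (φ : SympCt n) (x : R2 n) :
    HH η φ R x = ((fun z : R2 n => (R⁻¹) ^ (Module.finrank ℝ (R2 n)) * η (R⁻¹ • z))
      ⋆[ContinuousLinearMap.lsmul ℝ ℝ, volume] hh φ) x := by
  unfold HH convolution
  have h1 := Measure.integral_comp_smul (μ := (volume : Measure (R2 n)))
    (fun t : R2 n => η t • hh φ (x - R • t)) R⁻¹
  have h2 : ∀ t : R2 n, R • (R⁻¹ • t) = t := fun t => by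
    rw [smul_smul, mul_inv_cancel₀ hR.ne', one_smul]
  simp only [h2] at h1
  simp only [ContinuousLinearMap.lsmul_apply, mul_smul]
  rw [integral_smul, h1, smul_smul, abs_of_pos (by positivity), inv_pow, inv_inv,
    inv_mul_cancel₀ (by positivity), one_smul]

theorem ker_smooth {η : R2 n → ℝ} (hη : Moll η) (R : ℝ) :
    ContDiff ℝ ∞ (fun z : R2 n => (R⁻¹) ^ (Module.finrank ℝ (R2 n)) * η (R⁻¹ • z)) :=
  contDiff_const.mul (hη.smooth.comp (contDiff_const_smul R⁻¹))

theorem ker_cpt {η : R2 n → ℝ} (hη : Moll η) {R : ℝ} (hR : 0 < R) :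
    HasCompactSupport (fun z : R2 n => (R⁻¹) ^ (Module.finrank ℝ (R2 n)) * η (R⁻¹ • z)) :=
  (hη.cpt.comp_smul (inv_ne_zero hR.ne')).mul_left

/-- the mollified displacements of an `L¹`-continuous family -/
theorem HH_JC {P : Type} [TopologicalSpace P] {η : R2 n → ℝ} (hη : Moll η) {R : ℝ} (hR : 0 < R)
    (u : P → SympCt n)
    (hu : ∀ p₀, Filter.Tendsto (fun p => ∫ z, ‖(u p).toEquiv z - (u p₀).toEquiv z‖)
      (𝓝 p₀) (𝓝 0)) (k : ℕ) : JC k (R2 n) (fun p x => HH η (u p) R x) := by
  have e : (fun p x => HH η (u p) R x) = fun p x =>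
      ((fun z : R2 n => (R⁻¹) ^ (Module.finrank ℝ (R2 n)) * η (R⁻¹ • z))
      ⋆[ContinuousLinearMap.lsmul ℝ ℝ, volume] hh (u p)) x := by
    funext p x
    exact HH_conv hR _ _
  rw [e]
  refine JC_conv k _ (ker_smooth hη R) (ker_cpt hη hR) (h := fun p => hh (u p))
    (fun p => (hh_smooth (u p)).continuous.integrable_of_hasCompactSupport (hh_cpt (u p))) ?_
  intro p₀
  refine (hu p₀).congr fun p => ?_
  refine integral_congr_ae (Filter.Eventually.of_forall fun z => ?_)
  simp only [hh]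
  congr 1
  abel

end Pool.Agent.V5helper82.SB
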