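import Mathlib
import Pool.Agent.V5helper82.SB.Conv
import Pool.Agent.W5h49.EC.KerFam

/-!
# Chains of `L¹`-continuous families
-/

set_option autoImplicit false
set_option maxHeartbeats 1000000

open scoped ContDiff Topology
open MeasureTheory Set Metric

namespace Pool.Agent.V5helper82.SB

open Pool.Agent.W71.EC Pool.Agent.W5h83.HG Pool.Agent.W5h49.EC

variable {n : ℕ}

theorem hh_one (x : R2 n) : hh (one : SympCt n) x = 0 := sub_self x

theorem HH_one (η : R2 n → ℝ) (s : ℝ) (x : R2 n) : HH η (one : SympCt n) s x = 0 := by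
  unfold HH
  simp [hh_one]

/-- the step functions -/
noncomputable def st (N : ℕ) (c : ℝ) (i : ℕ) : ℝ := Real.smoothTransition (N * c - i)

theorem st_zero (N i : ℕ) : st N 0 i = 0 := by
  unfold st
  exact Real.smoothTransition.zero_of_nonpos (by
    have : (0 : ℝ) ≤ i := i.cast_nonneg
    linarith)

theorem st_one {N i : ℕ} (hi : i < N) : st N 1 i = 1 := by
  unfold st
  exact Real.smoothTransition.one_of_one_le (by
    have : (i : ℝ) + 1 ≤ N := by exact_mod_cast hi
    linarith)

/-- the interpolation of a sequence -/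
theorem st_sum {E : Type*} [AddCommGroup E] [Module ℝ E] (A : ℕ → E) {N : ℕ} {c : ℝ}
    (hc0 : 0 ≤ c) (hc1 : c < 1) (hN : 0 < N) : ∃ j, j < N ∧ ∃ s : ℝ, 0 ≤ s ∧ s ≤ 1 ∧
    (1 - c) • A 0 + c • A N + ∑ i ∈ Finset.range N, (st N c i - c) • (A (i + 1) - A i) =
      (1 - s) • A j + s • A (j + 1) := by
  set j : ℕ := ⌊(N : ℝ) * c⌋₊ with hj
  have hN' : (0 : ℝ) < N := by exact_mod_cast hN
  have h0 : (0 : ℝ) ≤ N * c := by positivity
  have hj1 : (j : ℝ) ≤ N * c := Nat.floor_le h0
  have hj2 : (N : ℝ) * c < j + 1 := Nat.lt_floor_add_one _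
  have hjN : j < N := by
    have : (j : ℝ) < N := lt_of_le_of_lt hj1 (by nlinarith)
    exact_mod_cast this
  refine ⟨j, hjN, st N c j, Real.smoothTransition.nonneg _, Real.smoothTransition.le_one _, ?_⟩
  have e1 : ∑ i ∈ Finset.range N, (st N c i - c) • (A (i + 1) - A i) =
      ∑ i ∈ Finset.range N, st N c i • (A (i + 1) - A i) - c • (A N - A 0) := by
    rw [← Finset.sum_range_sub, Finset.smul_sum, ← Finset.sum_sub_distrib]
    exact Finset.sum_congr rfl fun i _ => sub_smul _ _ _
  have e2 : ∑ i ∈ Finset.range N, st N c i • (A (i + 1) - A i) =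
      ∑ i ∈ Finset.range (j + 1), st N c i • (A (i + 1) - A i) := by
    symm
    refine Finset.sum_subset (Finset.range_subset_range.2 hjN) fun i _ hi => ?_
    have h1 : j + 1 ≤ i := by simpa using hi
    have h2 : (j : ℝ) + 1 ≤ i := by exact_mod_cast h1
    have h3 : st N c i = 0 := Real.smoothTransition.zero_of_nonpos (by linarith)
    rw [h3, zero_smul]
  have e3 : ∑ i ∈ Finset.range j, st N c i • (A (i + 1) - A i) = A j - A 0 := by
    rw [← Finset.sum_range_sub]
    refine Finset.sum_congr rfl fun i hi => ?_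
    have h1 : i + 1 ≤ j := by simpa using hi
    have h2 : (i : ℝ) + 1 ≤ j := by exact_mod_cast h1
    have h3 : st N c i = 1 := Real.smoothTransition.one_of_one_le (by linarith)
    rw [h3, one_smul]
  rw [e1, e2, Finset.sum_range_succ, e3]
  module

/-- **Chains.** Two families are homotopic if they are the ends of a chain of `L¹`-continuous
families of symplectomorphisms with small variance up to the scale `R`, any two consecutive ones
being close at the scale `R`. -/
theorem chain {C : Type} [TopologicalSpace C] [CompactSpace C] {η : R2 n → ℝ} (hη : Moll η)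
    {θ κ : ℝ} (hθ : θ < 1) (hκ : κ < 4 * (1 - θ)) {R : ℝ} (hR : 0 < R) (f g : C(C, SympCt n))
    {N : ℕ} (hN : 0 < N) (u : ℕ → C → SympCt n) (hu0 : ∀ p, u 0 p = f p)
    (huN : ∀ p, u N p = g p) {m : ℕ}
    (hm : ∀ i p, u i p ∈ supportedIn (closedBall (0 : R2 n) m))
    (hL : ∀ i p₀, Filter.Tendsto (fun p => ∫ z, ‖(u i p).toEquiv z - (u i p₀).toEquiv z‖)
      (𝓝 p₀) (𝓝 0))
    (hV : ∀ i p, VarLe η θ R (u i p))
    (hd : ∀ i < N, ∀ p x v,
      nsq (MD η (u i p) R x v - MD η (u (i + 1) p) R x v) ≤ κ * nsq v) :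
    f.HomotopicRel g {p | ∀ i, u i p = one} := by
  set c : ℝ → ℝ := fun t => Real.smoothTransition (3 * t - 1) with hc
  set r : ℝ → ℝ := fun t =>
    R * (Real.smoothTransition (3 * t) * Real.smoothTransition (3 - 3 * t)) with hr
  have hcs : ContDiff ℝ ∞ c :=
    Real.smoothTransition.contDiff.comp ((contDiff_const.mul contDiff_id).sub contDiff_const)
  have hrs : ContDiff ℝ ∞ r :=
    contDiff_const.mul ((Real.smoothTransition.contDiff.comp
      (contDiff_const.mul contDiff_id)).mul (Real.smoothTransition.contDiff.comp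
        (contDiff_const.sub (contDiff_const.mul contDiff_id))))
  have hc0 : ∀ t, 0 ≤ c t ∧ c t ≤ 1 := fun t =>
    ⟨Real.smoothTransition.nonneg _, Real.smoothTransition.le_one _⟩
  have hr0 : ∀ t, 0 ≤ r t ∧ r t ≤ R := by
    intro t
    have h1 := Real.smoothTransition.nonneg (3 * t)
    have h2 := Real.smoothTransition.le_one (3 * t)
    have h3 := Real.smoothTransition.nonneg (3 - 3 * t)
    have h4 := Real.smoothTransition.le_one (3 - 3 * t)
    refine ⟨mul_nonneg hR.le (mul_nonneg h1 h3), ?_⟩
    show R * _ ≤ R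
    have h5 : Real.smoothTransition (3 * t) * Real.smoothTransition (3 - 3 * t) ≤ 1 :=
      mul_le_one₀ h2 h3 h4
    nlinarith
  have hcr : ∀ t, c t = 0 ∨ c t = 1 ∨ r t = R := by
    intro t
    rcases le_total (3 * t) 1 with ht | ht
    · left
      exact Real.smoothTransition.zero_of_nonpos (by linarith)
    · rcases le_total (3 * t) 2 with ht2 | ht2
      · right; right
        show R * (Real.smoothTransition (3 * t) * Real.smoothTransition (3 - 3 * t)) = R
        rw [Real.smoothTransition.one_of_one_le ht,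
          Real.smoothTransition.one_of_one_le (by linarith), mul_one, mul_one]
      · right; left
        exact Real.smoothTransition.one_of_one_le (by linarith)
  have hws : ∀ i, ContDiff ℝ ∞ (fun t => st N (c t) i - c t) := fun i =>
    (Real.smoothTransition.contDiff.comp ((contDiff_const.mul hcs).sub contDiff_const)).sub hcs
  obtain ⟨B, hB⟩ := HH_supp_unif hη m hR.le
  have hBi : ∀ i p s, 0 ≤ s → s ≤ R → ∀ x : R2 n, x ∉ closedBall (0 : R2 n) B →
      HH η (u i p) s x = 0 := fun i p s h0 h1 x hx => hB (u i p) (hm i p) s h0 h1 x hx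
  have hhJ : ∀ (f : C(C, SympCt n)) (k : ℕ), JC k (R2 n) (fun p x => hh (f p) x) := by
    intro f k
    have h1 := (JS.of_continuous f.continuous k).add
      (JC.ofSmooth (P := C) (φ := fun x : R2 n => -x) contDiff_neg k)
    have h2 : (fun p x => hh (f p) x) = fun p x => (f p).toEquiv x + -x := by
      funext p x
      rw [hh, sub_eq_add_neg]
    rw [h2]
    exact h1
  have hHJ : ∀ (f : C(C, SympCt n)) (k : ℕ),
      JC k (R2 n) (fun (q : C × ℝ) x => HH η (f q.1) (r q.2) x) := by
    intro f k
    exact JC_int hη (σ := fun q : C × ℝ => r q.2) (hrs.continuous.comp continuous_snd) k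
      ((hhJ f k).param continuous_fst)
  have huJ : ∀ i (k : ℕ), JC k (R2 n) (fun (q : C × ℝ) x => HH η (u i q.1) R x) := fun i k =>
    (HH_JC hη hR (u i) (hL i) k).param continuous_fst
  let F : C → ℝ × R2 n → R2 n := fun p q => q.2 + ((1 - c q.1) • HH η (f p) (r q.1) q.2 +
      c q.1 • HH η (g p) (r q.1) q.2) + ∑ i ∈ Finset.range N, (st N (c q.1) i - c q.1) •
        (HH η (u (i + 1) p) R q.2 - HH η (u i p) R q.2)
  let A : SympCt n → ℝ → R2 n → (R2 n →L[ℝ] R2 n) := fun φ s x =>
    ∫ y, η y • fderiv ℝ (hh φ) (x - s • y)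
  have hDF : ∀ p t x, DF (F p) t x =
      ContinuousLinearMap.id ℝ (R2 n) + ((1 - c t) • A (f p) (r t) x + c t • A (g p) (r t) x) +
        ∑ i ∈ Finset.range N, (st N (c t) i - c t) • (A (u (i + 1) p) R x - A (u i p) R x) := by
    intro p t x
    have h1 : HasFDerivAt (fun y => ∑ i ∈ Finset.range N, (st N (c t) i - c t) •
        (HH η (u (i + 1) p) R y - HH η (u i p) R y))
        (∑ i ∈ Finset.range N, (st N (c t) i - c t) • (A (u (i + 1) p) R x - A (u i p) R x))
        x := by
      refine HasFDerivAt.fun_sum fun i _ => ?_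
      exact ((HH_fderiv hη (u (i + 1) p) R x).sub
        (HH_fderiv hη (u i p) R x)).const_smul (st N (c t) i - c t)
    exact (((hasFDerivAt_id x).add (((HH_fderiv hη (f p) (r t) x).const_smul (1 - c t)).add
      ((HH_fderiv hη (g p) (r t) x).const_smul (c t)))).add h1).fderiv
  have hMD : ∀ φ s x v, MD η φ s x v = v + A φ s x v := fun φ s x v => MD_eq hη φ s x v
  have hF : ∀ p, ContDiff ℝ ∞ (F p) := by
    intro p
    have e1 : ContDiff ℝ ∞ (fun p : ℝ × R2 n => (r p.1, p.2)) :=
      (hrs.comp contDiff_fst).prodMk contDiff_snd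
    have e2 : ContDiff ℝ ∞ (fun p : ℝ × R2 n => c p.1) := hcs.comp contDiff_fst
    have e3 : ContDiff ℝ ∞ (fun p : ℝ × R2 n => (R, p.2)) :=
      contDiff_const.prodMk contDiff_snd
    refine (contDiff_snd.add (((contDiff_const.sub e2).smul ((HH_smooth hη (f p)).comp e1)).add
      (e2.smul ((HH_smooth hη (g p)).comp e1)))).add (ContDiff.sum fun i _ => ?_)
    exact ((hws i).comp contDiff_fst).smul (((HH_smooth hη (u (i + 1) p)).comp e3).sub
      ((HH_smooth hη (u i p)).comp e3))
  have hJ : ∀ k, JC k (R2 n) (fun (q : C × ℝ) (x : R2 n) => F q.1 (q.2, x)) := by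
    intro k
    have h1 : Continuous (fun q : C × ℝ => 1 - c q.2) :=
      continuous_const.sub (hcs.continuous.comp continuous_snd)
    have h2 : Continuous (fun q : C × ℝ => c q.2) := hcs.continuous.comp continuous_snd
    have h3 : ∀ M : ℕ, JC k (R2 n) (fun (q : C × ℝ) (x : R2 n) =>
        ∑ i ∈ Finset.range M, (st N (c q.2) i - c q.2) •
          (HH η (u (i + 1) q.1) R x - HH η (u i q.1) R x)) := by
      intro M
      induction M with
      | zero =>
        simp only [Finset.range_zero, Finset.sum_empty]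
        exact JC.constX continuous_const k
      | succ M ih =>
        simp only [Finset.sum_range_succ]
        refine ih.add (JC.smulP ((hws M).continuous.comp continuous_snd) ?_)
        have h4 := (huJ (M + 1) k).add (huJ M k).neg
        refine cast ?_ h4
        congr 1
    exact ((JC.ofSmooth (P := C × ℝ) (φ := fun x : R2 n => x) contDiff_id k).add
      (((hHJ f k).smulP h1).add ((hHJ g k).smulP h2))).add (h3 N)
  have hu0' : ∀ p, f p = u 0 p := fun p => (hu0 p).symm
  have huN' : ∀ p, g p = u N p := fun p => (huN p).symm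
  have hK0 : ∀ p t x, x ∉ closedBall (0 : R2 n) B → F p (t, x) = x := by
    intro p t x hx
    have h1 : HH η (f p) (r t) x = 0 := by
      rw [hu0' p]
      exact hBi 0 p _ (hr0 t).1 (hr0 t).2 x hx
    have h2 : HH η (g p) (r t) x = 0 := by
      rw [huN' p]
      exact hBi N p _ (hr0 t).1 (hr0 t).2 x hx
    show x + ((1 - c t) • HH η (f p) (r t) x + c t • HH η (g p) (r t) x) +
      ∑ i ∈ Finset.range N, (st N (c t) i - c t) •
        (HH η (u (i + 1) p) R x - HH η (u i p) R x) = x
    rw [h1, h2, Finset.sum_eq_zero]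
    · simp
    · intro i _
      rw [hBi (i + 1) p R hR.le le_rfl x hx, hBi i p R hR.le le_rfl x hx, sub_zero, smul_zero]
  have hF0 : ∀ p x, F p (0, x) = (f p).toEquiv x := by
    intro p x
    have h1 : c 0 = 0 := Real.smoothTransition.zero_of_nonpos (by norm_num)
    have h2 : r 0 = 0 := by
      show R * (Real.smoothTransition (3 * 0) * _) = 0
      rw [mul_zero, Real.smoothTransition.zero, zero_mul, mul_zero]
    show x + ((1 - c 0) • HH η (f p) (r 0) x + c 0 • HH η (g p) (r 0) x) +
      ∑ i ∈ Finset.range N, (st N (c 0) i - c 0) •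
        (HH η (u (i + 1) p) R x - HH η (u i p) R x) = (f p).toEquiv x
    rw [h1, h2, HH_zero hη, Finset.sum_eq_zero]
    · simp [hh]
    · intro i _
      rw [st_zero, sub_zero, zero_smul]
  have hF1 : ∀ p x, F p (1, x) = (g p).toEquiv x := by
    intro p x
    have h1 : c 1 = 1 := Real.smoothTransition.one_of_one_le (by norm_num)
    have h2 : r 1 = 0 := by
      show R * (_ * Real.smoothTransition (3 - 3 * 1)) = 0
      have : (3 : ℝ) - 3 * 1 = 0 := by norm_num
      rw [this, Real.smoothTransition.zero, mul_zero, mul_zero]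
    show x + ((1 - c 1) • HH η (f p) (r 1) x + c 1 • HH η (g p) (r 1) x) +
      ∑ i ∈ Finset.range N, (st N (c 1) i - c 1) •
        (HH η (u (i + 1) p) R x - HH η (u i p) R x) = (g p).toEquiv x
    rw [h1, h2, HH_zero hη (g p), Finset.sum_eq_zero]
    · simp [hh]
    · intro i hi
      rw [st_one (by simpa using hi), sub_self, zero_smul]
  have key := moser_fam2 (flow_jc nem ev n) (xjc n) C F (closedBall (0 : R2 n) B) hF hJ
    (isCompact_closedBall _ _) hK0 ?_ f g hF0 hF1
  · refine rel_mono key fun p hp t x => ?_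
    have h1 : ∀ t x, F p (t, x) = x := by
      intro t x
      show x + ((1 - c t) • HH η (f p) (r t) x + c t • HH η (g p) (r t) x) +
        ∑ i ∈ Finset.range N, (st N (c t) i - c t) •
          (HH η (u (i + 1) p) R x - HH η (u i p) R x) = x
      have hp' : ∀ i, u i p = one := hp
      rw [hu0' p, huN' p, hp' 0, hp' N, HH_one, Finset.sum_eq_zero]
      · simp
      · intro i _
        rw [hp', hp', sub_self, smul_zero]
    rw [h1, h1]
  · intro p t x v hv
    -- the differential is a combination of two consecutive ones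
    have hend : ∀ φ, (φ = u 0 p ∨ φ = u N p) → ∀ v, v ≠ 0 →
        0 < omega (MD η φ (r t) x v) (MD η φ (r t) x (J v)) := by
      intro φ hφ v hv
      have hV' : VarLe η θ R φ := by
        rcases hφ with rfl | rfl
        · exact hV 0 p
        · exact hV N p
      have h1 := var2 n φ η hη θ R hV' (r t) (hr0 t).1 (hr0 t).2 x v
      have h2 : 0 < (1 - θ) * nsq v := mul_pos (by linarith) (nsqPos hv)
      linarith
    rcases hcr t with h | h | h
    · have e : ∀ w, DF (F p) t x w = MD η (u 0 p) (r t) x w := by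
        intro w
        rw [hDF, hMD, ← hu0' p, h, Finset.sum_eq_zero]
        · simp
        · intro i _
          rw [st_zero, sub_zero, zero_smul]
      rw [e, e]
      exact hend _ (Or.inl rfl) v hv
    · have e : ∀ w, DF (F p) t x w = MD η (u N p) (r t) x w := by
        intro w
        rw [hDF, hMD, ← huN' p, h, Finset.sum_eq_zero]
        · simp
        · intro i hi
          rw [st_one (by simpa using hi), sub_self, zero_smul]
      rw [e, e]
      exact hend _ (Or.inr rfl) v hv
    · rcases (hc0 t).2.eq_or_lt with h1 | h1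
      · have e : ∀ w, DF (F p) t x w = MD η (u N p) (r t) x w := by
          intro w
          rw [hDF, hMD, ← huN' p, h1, Finset.sum_eq_zero]
          · simp
          · intro i hi
            rw [st_one (by simpa using hi), sub_self, zero_smul]
        rw [e, e]
        exact hend _ (Or.inr rfl) v hv
      · obtain ⟨j, hj, s, hs0, hs1, hs⟩ := st_sum (fun i => A (u i p) R x) (hc0 t).1 h1 hN
        have e : ∀ w, DF (F p) t x w =
            (1 - s) • MD η (u j p) R x w + s • MD η (u (j + 1) p) R x w := by
          intro w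
          rw [hDF, hMD, hMD, hu0' p, huN' p, h, add_assoc, hs]
          simp only [_root_.add_apply, _root_.smul_apply, ContinuousLinearMap.id_apply, smul_add]
          have h5 : (1 - s) • w + s • w = w := by rw [← add_smul]; simp
          calc _ = ((1 - s) • w + s • w) + _ := by rw [h5]
            _ = _ := by abel
        rw [e, e]
        refine tame_aux hθ hκ hs0 hs1 hv (var2 n (u j p) η hη θ R (hV j p) R hR.le le_rfl x v)
          (var2 n (u (j + 1) p) η hη θ R (hV (j + 1) p) R hR.le le_rfl x v) (Or.inr (Or.inr ?_))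
        refine ⟨hd j hj p x v, ?_⟩
        have := hd j hj p x (J v)
        rwa [nsq_J] at this

end Pool.Agent.V5helper82.SB
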