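import Mathlib
import Pool.Agent.V5helper82.SB.Chain

/-!
# `L¹`-continuous homotopies with uniformly small mean oscillation
-/

set_option autoImplicit false

open scoped ContDiff Topology
open MeasureTheory Set Metric

namespace Pool.Agent.V5helper82.SB

open Pool.Agent.W71.EC Pool.Agent.W5h83.HG Pool.Agent.W5h49.EC

variable {n : ℕ}

attribute [local instance] CubeAux.haar

/-- the `L¹` distance -/
noncomputable def d1 (φ ψ : SympCt n) : ℝ := ∫ z, ‖φ.toEquiv z - ψ.toEquiv z‖

theorem diff_cpt (φ ψ : SympCt n) :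
    HasCompactSupport (fun z => φ.toEquiv z - ψ.toEquiv z) := by
  have h1 := (hh_cpt φ).sub (hh_cpt ψ)
  have h2 : (hh φ - hh ψ) = fun z => φ.toEquiv z - ψ.toEquiv z := by
    funext z
    simp only [Pi.sub_apply, hh]
    abel
  rwa [h2] at h1

theorem diff_cont (φ ψ : SympCt n) : Continuous (fun z => φ.toEquiv z - ψ.toEquiv z) :=
  φ.smooth.continuous.sub ψ.smooth.continuous

theorem diff_int (φ ψ : SympCt n) : Integrable (fun z => φ.toEquiv z - ψ.toEquiv z) :=
  (diff_cont φ ψ).integrable_of_hasCompactSupport (diff_cpt φ ψ)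

theorem d1_nonneg (φ ψ : SympCt n) : 0 ≤ d1 φ ψ := integral_nonneg fun _ => norm_nonneg _

theorem d1_self (φ : SympCt n) : d1 φ φ = 0 := by
  unfold d1
  simp

theorem d1_comm (φ ψ : SympCt n) : d1 φ ψ = d1 ψ φ := by
  unfold d1
  simp only [norm_sub_rev]

theorem d1_triangle (φ ψ χ : SympCt n) : d1 φ χ ≤ d1 φ ψ + d1 ψ χ := by
  unfold d1
  rw [← integral_add (diff_int φ ψ).norm (diff_int ψ χ).norm]
  refine integral_mono (diff_int φ χ).norm ((diff_int φ ψ).norm.add (diff_int ψ χ).norm)
    fun z => ?_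
  exact norm_sub_le_norm_sub_add_norm_sub _ _ _

/-- `L¹`-continuous families -/
def L1Cont {X : Type*} [TopologicalSpace X] (h : X → SympCt n) : Prop :=
  ∀ x₀, Filter.Tendsto (fun x => d1 (h x) (h x₀)) (𝓝 x₀) (𝓝 0)

theorem L1Cont.cont2 {X : Type*} [TopologicalSpace X] {h : X → SympCt n} (hh : L1Cont h) :
    Continuous (fun z : X × X => d1 (h z.1) (h z.2)) := by
  rw [continuous_iff_continuousAt]
  rintro ⟨x₀, y₀⟩
  rw [ContinuousAt, tendsto_iff_norm_sub_tendsto_zero]
  have h1 := ((hh x₀).comp (continuous_fst.tendsto ((x₀, y₀) : X × X))).add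
    ((hh y₀).comp (continuous_snd.tendsto ((x₀, y₀) : X × X)))
  rw [add_zero] at h1
  refine squeeze_zero (fun _ => norm_nonneg _) (fun z => ?_) h1
  rw [Real.norm_eq_abs, abs_le]
  simp only [Function.comp_apply]
  have e1 := d1_triangle (h z.1) (h x₀) (h z.2)
  have e2 := d1_triangle (h x₀) (h y₀) (h z.2)
  have e3 := d1_triangle (h x₀) (h z.1) (h y₀)
  have e4 := d1_triangle (h z.1) (h z.2) (h y₀)
  rw [d1_comm (h y₀) (h z.2)] at e2
  rw [d1_comm (h x₀) (h z.1)] at e3
  constructor <;> linarith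

theorem L1Cont.comp {X Y : Type*} [TopologicalSpace X] [TopologicalSpace Y] {h : X → SympCt n}
    (hh : L1Cont h) {a : Y → X} (ha : Continuous a) : L1Cont (fun y => h (a y)) :=
  fun y₀ => (hh (a y₀)).comp (ha.tendsto y₀)

/-- uniform closeness in the homotopy parameter -/
theorem L1Cont.unif {C : Type*} [TopologicalSpace C] [CompactSpace C]
    {h : C × unitInterval → SympCt n} (hh : L1Cont h) {δ : ℝ} (hδ : 0 < δ) :
    ∃ m : ℝ, 0 < m ∧ ∀ (c : C) (s t : unitInterval), |(s : ℝ) - t| < m →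
      d1 (h (c, s)) (h (c, t)) < δ := by
  let a : C × (unitInterval × unitInterval) → (C × unitInterval) × (C × unitInterval) :=
    fun z => ((z.1, z.2.1), (z.1, z.2.2))
  have ha : Continuous a := by
    refine (continuous_fst.prodMk (continuous_fst.comp continuous_snd)).prodMk
      (continuous_fst.prodMk (continuous_snd.comp continuous_snd))
  have hD : Continuous (fun z => d1 (h (a z).1) (h (a z).2)) := hh.cont2.comp ha
  set Z : Set (C × (unitInterval × unitInterval)) := {z | δ ≤ d1 (h (a z).1) (h (a z).2)} with hZ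
  have hZc : IsCompact Z := (isClosed_le continuous_const hD).isCompact
  have hg : Continuous (fun z : C × (unitInterval × unitInterval) =>
      |(z.2.1 : ℝ) - z.2.2|) :=
    ((continuous_subtype_val.comp (continuous_fst.comp continuous_snd)).sub
      (continuous_subtype_val.comp (continuous_snd.comp continuous_snd))).abs
  rcases Z.eq_empty_or_nonempty with he | hne
  · refine ⟨1, one_pos, fun c s t _ => ?_⟩
    by_contra h1
    have : (c, (s, t)) ∈ Z := not_lt.1 h1
    rw [he] at this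
    exact this
  · obtain ⟨z₀, hz₀, hmin⟩ := hZc.exists_isMinOn hne hg.continuousOn
    refine ⟨|(z₀.2.1 : ℝ) - z₀.2.2|, ?_, fun c s t hst => ?_⟩
    · rw [abs_pos, sub_ne_zero]
      intro h1
      have h2 : z₀.2.1 = z₀.2.2 := Subtype.ext h1
      have h3 : δ ≤ d1 (h (z₀.1, z₀.2.1)) (h (z₀.1, z₀.2.2)) := hz₀
      rw [h2, d1_self] at h3
      linarith
    · by_contra h1
      have h2 : (c, (s, t)) ∈ Z := not_lt.1 h1
      have h3 := hmin h2
      simp only [mem_ofPred_eq] at h3
      linarith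

/-- **Homotopies with small mean oscillation.** -/
theorem osc_path {θ : ℝ} (hθ : θ < 1) {R : ℝ} (hR : 0 < R) {C : Type} [TopologicalSpace C]
    [CompactSpace C] (f g : C(C, SympCt n)) (h : C × unitInterval → SympCt n) {m : ℕ}
    (hm : ∀ z, h z ∈ supportedIn (closedBall (0 : R2 n) m)) (hL : L1Cont h)
    (hosc : ∀ z, OscLe θ R (h z)) (hf : ∀ c, h (c, 0) = f c) (hg : ∀ c, h (c, 1) = g c) :
    f.HomotopicRel g {c | ∀ t, h (c, t) = one} := by
  obtain ⟨η, θ', hη, hs, hθ', hcube⟩ := cube2 n θ hθ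
  obtain ⟨C₀, hC0, hdiff⟩ := diff n η hη hs
  set V : ℝ := volume.real (ball (0 : R2 n) R) with hV
  have hVx : ∀ x : R2 n, volume.real (ball x R) = V := by
    intro x
    rw [hV, measureReal_def, measureReal_def, Measure.addHaar_ball_center]
  have hV0 : 0 < V := ENNReal.toReal_pos (Metric.measure_ball_pos _ _ hR).ne'
    measure_ball_lt_top.ne
  have h1 : 0 < 1 - θ' := by linarith
  set δ : ℝ := Real.sqrt (1 - θ') * R * V / C₀ with hδ
  have hδ0 : 0 < δ := by
    have := Real.sqrt_pos.2 h1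
    positivity
  obtain ⟨m₀, hm₀, hunif⟩ := hL.unif hδ0
  obtain ⟨N₀, hN₀⟩ := exists_nat_gt (1 / m₀)
  set N : ℕ := N₀ + 1 with hN
  have hNpos : (0 : ℝ) < N := by
    rw [hN]
    positivity
  have hNm : 1 / (N : ℝ) < m₀ := by
    rw [div_lt_comm₀ hNpos hm₀]
    refine hN₀.trans ?_
    rw [hN]
    push_cast
    linarith
  let τ : ℕ → unitInterval := fun i => Set.projIcc (0 : ℝ) 1 zero_le_one ((i : ℝ) / N)
  have hτ0 : τ 0 = 0 := by
    have : ((0 : ℕ) : ℝ) / N = 0 := by simp
    simp only [τ, this]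
    exact Set.projIcc_left (zero_le_one (α := ℝ))
  have hτN : τ N = 1 := by
    have : (N : ℝ) / N = 1 := div_self hNpos.ne'
    simp only [τ, this]
    exact Set.projIcc_right (zero_le_one (α := ℝ))
  have hτd : ∀ i, |(τ i : ℝ) - τ (i + 1)| < m₀ := by
    intro i
    have e1 : |(τ i : ℝ) - τ (i + 1)| ≤ |(i : ℝ) / N - ((i + 1 : ℕ) : ℝ) / N| :=
      Set.abs_projIcc_sub_projIcc zero_le_one
    refine e1.trans_lt ?_
    have e2 : (i : ℝ) / N - ((i + 1 : ℕ) : ℝ) / N = -(1 / N) := by
      push_cast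
      ring
    rw [e2, abs_neg, abs_of_pos (by positivity)]
    exact hNm
  let u : ℕ → C → SympCt n := fun i c => h (c, τ i)
  have key := chain hη hθ' (κ := 1 - θ') (by linarith) hR f g (Nat.succ_pos N₀) u
    (fun p => by simp only [u, hτ0, hf]) (fun p => by
      have : τ (N₀ + 1) = 1 := hτN
      simp only [u, Nat.succ_eq_add_one, this, hg])
    (fun i p => hm (p, τ i))
    (fun i => (hL.comp (a := fun c => (c, τ i)) (continuous_id.prodMk continuous_const)))
    (fun i p => hcube _ R (hosc (p, τ i))) ?_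
  · refine rel_mono key fun c hc i => ?_
    exact hc (τ i)
  · intro i _ p x v
    refine (hdiff (u i p) (u (i + 1) p) R hR x v).trans ?_
    refine mul_le_mul_of_nonneg_right ?_ (nsqNN v)
    have e1 : ⨍ y in Metric.ball x R, ‖(u i p).toEquiv y - (u (i + 1) p).toEquiv y‖ ≤ δ / V := by
      rw [setAverage_eq, hVx, smul_eq_mul, inv_mul_eq_div]
      refine div_le_div_of_nonneg_right ?_ hV0.le
      refine (setIntegral_le_integral (diff_int _ _).norm
        (Filter.Eventually.of_forall fun _ => norm_nonneg _)).trans ?_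
      exact (hunif p (τ i) (τ (i + 1)) (hτd i)).le
    have e2 : 0 ≤ ⨍ y in Metric.ball x R, ‖(u i p).toEquiv y - (u (i + 1) p).toEquiv y‖ := by
      rw [setAverage_eq]
      exact smul_nonneg (by positivity) (integral_nonneg fun y => norm_nonneg _)
    have e3 : C₀ / R * ⨍ y in Metric.ball x R, ‖(u i p).toEquiv y - (u (i + 1) p).toEquiv y‖ ≤
        Real.sqrt (1 - θ') := by
      calc _ ≤ C₀ / R * (δ / V) := mul_le_mul_of_nonneg_left e1 (by positivity)
        _ = Real.sqrt (1 - θ') := by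
            rw [hδ]
            field_simp
    calc _ ≤ Real.sqrt (1 - θ') ^ 2 := by
          have : 0 ≤ C₀ / R * ⨍ y in Metric.ball x R,
            ‖(u i p).toEquiv y - (u (i + 1) p).toEquiv y‖ := by positivity
          gcongr
      _ = 1 - θ' := Real.sq_sqrt h1.le

end Pool.Agent.V5helper82.SB
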