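import Mathlib
import Pool.Agent.V5helper82.SB.OscPath
import Pool.Agent.W5h49.EC.Energy
import Pool.Agent.W5h49.EC.Poin1
import Pool.Agent.W5h49.EC.Poin2

/-!
# The critical Sobolev norm
-/

set_option autoImplicit false

open scoped ContDiff Topology NNReal ENNReal
open MeasureTheory Set Metric

namespace Pool.Agent.V5helper82.SB

open Pool.Agent.W71.EC Pool.Agent.W5h83.HG Pool.Agent.W5h49.EC

variable {n : ℕ}

attribute [local instance] CubeAux.haar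

instance finMM (j : ℕ) : FiniteDimensional ℝ (R2 n [×j]→L[ℝ] R2 n) :=
  FiniteDimensional.of_injective
    (ContinuousMultilinearMap.toMultilinearMapLinear :
      (R2 n [×j]→L[ℝ] R2 n) →ₗ[ℝ] MultilinearMap ℝ (fun _ : Fin j => R2 n) (R2 n))
    ContinuousMultilinearMap.toMultilinearMap_injective

theorem finrank_R2 : Module.finrank ℝ (R2 n) = 2 * n := by simp [R2, two_mul]

/-- the iterated derivatives vanish where the function is locally zero -/
theorem iter_out {u : R2 n → R2 n} {M : ℝ} (hu : ∀ x, x ∉ closedBall (0 : R2 n) M → u x = 0)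
    (j : ℕ) : ∀ x, x ∉ closedBall (0 : R2 n) M → iteratedFDeriv ℝ j u x = 0 := by
  intro x hx
  have h1 : u =ᶠ[𝓝 x] fun _ => 0 := by
    filter_upwards [isClosed_closedBall.isOpen_compl.mem_nhds hx] with y hy
    exact hu y hy
  rw [(h1.iteratedFDeriv (𝕜 := ℝ) j).eq_of_nhds]
  have h2 := iteratedFDeriv_fun_zero (𝕜 := ℝ) (E := R2 n) (F := R2 n) (n := j)
  rw [h2]
  rfl

theorem iter_cont {u : R2 n → R2 n} (hu : ContDiff ℝ ∞ u) (j : ℕ) :
    ContDiff ℝ ∞ (iteratedFDeriv ℝ j u) :=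
  hu.iteratedFDeriv_right (m := ∞) (by exact_mod_cast le_top)

/-- the exponents -/
noncomputable def ex (n i : ℕ) : ℝ≥0 := max 1 ((2 * n : ℝ≥0) / ((i : ℝ≥0) + 1))

theorem ex_one (i : ℕ) : 1 ≤ ex n i := le_max_left _ _

theorem ex_zero (hn : 0 < n) : ex n 0 = ((2 * n : ℕ) : ℝ≥0) := by
  have h1 : (1 : ℝ≥0) ≤ n := by exact_mod_cast hn
  have h2 : (1 : ℝ≥0) ≤ 2 * n := by
    calc (1 : ℝ≥0) ≤ n := h1
      _ ≤ 2 * n := by nlinarith
  simp only [ex, Nat.cast_zero, zero_add, div_one]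
  rw [max_eq_right h2]
  push_cast
  rfl

theorem ex_lt (hn : 0 < n) (i : ℕ) : ex n (i + 1) < (Module.finrank ℝ (R2 n) : ℝ≥0) := by
  have h1 : (1 : ℝ≥0) ≤ n := by exact_mod_cast hn
  have h0 : (0 : ℝ≥0) < n := lt_of_lt_of_le one_pos h1
  rw [finrank_R2]
  refine max_lt ?_ ?_
  · push_cast
    calc (1 : ℝ≥0) ≤ n := h1
      _ < 2 * n := by
          rw [two_mul]
          exact lt_add_of_pos_left _ h0
  · rw [div_lt_iff₀ (by positivity)]
    push_cast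
    have : (1 : ℝ≥0) < (i : ℝ≥0) + 1 + 1 := by
      have h2 : (0 : ℝ≥0) < (i : ℝ≥0) + 1 := by positivity
      exact lt_add_of_pos_left _ h2
    calc (2 * n : ℝ≥0) = 2 * n * 1 := (mul_one _).symm
      _ < 2 * n * ((i : ℝ≥0) + 1 + 1) := by gcongr

theorem ex_inv (hn : 0 < n) (i : ℕ) : ((ex n (i + 1))⁻¹ : ℝ) -
    ((Module.finrank ℝ (R2 n) : ℝ))⁻¹ ≤ ((ex n i : ℝ≥0) : ℝ)⁻¹ := by
  have h0 : (0 : ℝ) < n := by exact_mod_cast hn
  rw [finrank_R2]
  have e : ∀ i : ℕ, ((ex n i : ℝ≥0) : ℝ) = max 1 (2 * (n : ℝ) / ((i : ℝ) + 1)) := by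
    intro i
    simp [ex]
  rw [e, e]
  push_cast
  rcases le_total (1 : ℝ) (2 * (n : ℝ) / ((i : ℝ) + 1)) with h | h
  · rw [max_eq_right h]
    have h1 : (max 1 (2 * n / ((i : ℝ) + 1 + 1)))⁻¹ ≤ (2 * n / ((i : ℝ) + 1 + 1))⁻¹ :=
      inv_anti₀ (by positivity) (le_max_right _ _)
    have h2 : (2 * (n : ℝ) / ((i : ℝ) + 1 + 1))⁻¹ - (2 * (n : ℝ))⁻¹ =
        (2 * (n : ℝ) / ((i : ℝ) + 1))⁻¹ := by
      field_simp
      ring
    linarith
  · rw [max_eq_left h]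
    have h1 : (max 1 (2 * n / ((i : ℝ) + 1 + 1)))⁻¹ ≤ 1 := inv_le_one_of_one_le₀ (le_max_left _ _)
    have h2 : (0 : ℝ) ≤ (2 * (n : ℝ))⁻¹ := by positivity
    simp only [inv_one]
    linarith

theorem eLp_congr {E F : Type*} [NormedAddCommGroup E] [NormedAddCommGroup F] {a : R2 n → E}
    {b : R2 n → F} (h : ∀ x, ‖a x‖ = ‖b x‖) (p : ℝ≥0∞) :
    eLpNorm a p volume = eLpNorm b p volume :=
  eLpNorm_congr_norm_ae (Filter.Eventually.of_forall h)

/-- one Gagliardo–Nirenberg–Sobolev inequality -/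
theorem gns_step {F G : Type*} [NormedAddCommGroup F] [NormedSpace ℝ F] [FiniteDimensional ℝ F]
    [NormedAddCommGroup G] (M : ℝ) {p q : ℝ≥0} (hp : 1 ≤ p)
    (h2p : p < (Module.finrank ℝ (R2 n) : ℝ≥0))
    (hpq : ((p⁻¹ : ℝ≥0) : ℝ) - ((Module.finrank ℝ (R2 n) : ℝ))⁻¹ ≤ ((q : ℝ≥0) : ℝ)⁻¹) :
    ∃ C : ℝ≥0, ∀ (v : R2 n → F) (w : R2 n → G), ContDiff ℝ 1 v →
      (∀ x, x ∉ closedBall (0 : R2 n) M → v x = 0) → (∀ x, ‖fderiv ℝ v x‖ = ‖w x‖) →
      eLpNorm v q volume ≤ C * eLpNorm w p volume := by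
  refine ⟨eLpNormLESNormFDerivOfLeConst F volume (closedBall (0 : R2 n) M) p q,
    fun v w hv hs hw => ?_⟩
  have h1 := eLpNorm_le_eLpNorm_fderiv_of_le (volume : Measure (R2 n))
      (u := v) (s := closedBall (0 : R2 n) M) hv
      (fun x hx => by
        by_contra h
        exact hx (hs x h)) hp h2p hpq isBounded_closedBall
  rw [eLp_congr hw] at h1
  exact h1

/-- iterated Gagliardo–Nirenberg–Sobolev inequalities -/
theorem gns (hn : 0 < n) (M : ℝ) (i : ℕ) : ∃ C : ℝ≥0, ∀ u : R2 n → R2 n, ContDiff ℝ ∞ u →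
    (∀ x, x ∉ closedBall (0 : R2 n) M → u x = 0) →
    eLpNorm (iteratedFDeriv ℝ 2 u) ((2 * n : ℕ) : ℝ≥0) volume ≤
      C * eLpNorm (iteratedFDeriv ℝ (2 + i) u) (ex n i) volume := by
  induction i with
  | zero =>
    refine ⟨1, fun u _ _ => ?_⟩
    rw [ex_zero hn]
    simp
  | succ i ih =>
    obtain ⟨C, hC⟩ := ih
    obtain ⟨C', hC'⟩ := gns_step (n := n) (F := R2 n [×(2 + i)]→L[ℝ] R2 n)
      (G := R2 n [×(2 + i + 1)]→L[ℝ] R2 n) M (p := ex n (i + 1)) (q := ex n i) (ex_one _)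
      (ex_lt hn i) (by rw [NNReal.coe_inv]; exact ex_inv hn i)
    refine ⟨C * C', fun u hu hs => ?_⟩
    have h1 := hC' (iteratedFDeriv ℝ (2 + i) u) (iteratedFDeriv ℝ (2 + i + 1) u)
      ((iter_cont hu (2 + i)).of_le (by exact_mod_cast le_top)) (iter_out hs _)
      (fun x => norm_fderiv_iteratedFDeriv)
    calc _ ≤ C * eLpNorm (iteratedFDeriv ℝ (2 + i) u) (ex n i) volume := hC u hu hs
      _ ≤ C * (C' * eLpNorm (iteratedFDeriv ℝ (2 + i + 1) u) (ex n (i + 1)) volume) := by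
          gcongr
      _ = _ := by
          rw [← mul_assoc]
          push_cast
          rfl

theorem holder_out {E : Type*} [NormedAddCommGroup E] {g : R2 n → E} {M : ℝ}
    (hg : Continuous g) (hs : ∀ x, x ∉ closedBall (0 : R2 n) M → g x = 0) {q p : ℝ≥0}
    (hqp : q ≤ p) : eLpNorm g q volume ≤
      eLpNorm g p volume * volume (closedBall (0 : R2 n) M) ^ (1 / (q : ℝ) - 1 / (p : ℝ)) := by
  have hsub : Function.support g ⊆ closedBall (0 : R2 n) M := fun x hx => by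
    by_contra h
    exact hx (hs x h)
  rw [← eLpNorm_restrict_eq_of_support_subset (p := (q : ℝ≥0∞)) hsub,
    ← eLpNorm_restrict_eq_of_support_subset (p := (p : ℝ≥0∞)) hsub]
  have h1 := eLpNorm_le_eLpNorm_mul_rpow_measure_univ (μ := volume.restrict (closedBall (0 : R2 n) M))
    (f := g) (p := (q : ℝ≥0∞)) (q := (p : ℝ≥0∞)) (by exact_mod_cast hqp)
    (hg.stronglyMeasurable_of_hasCompactSupport
      (HasCompactSupport.intro (isCompact_closedBall (0 : R2 n) M) hs)).aestronglyMeasurable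
  rw [Measure.restrict_apply_univ] at h1
  simpa using h1

/-- from `W^{k,p}` to `W^{2,2n}` -/
theorem down (hn : 0 < n) {k : ℕ} {p : ℝ≥0} (hp : 1 ≤ p) (hk : (2 * n : ℝ) ≤ ((k : ℝ) - 1) * p)
    (M : ℝ) : ∃ C : ℝ≥0∞, C ≠ ⊤ ∧ ∀ u : R2 n → R2 n, ContDiff ℝ ∞ u →
    (∀ x, x ∉ closedBall (0 : R2 n) M → u x = 0) →
    eLpNorm (iteratedFDeriv ℝ 2 u) ((2 * n : ℕ) : ℝ≥0) volume ≤
      C * eLpNorm (iteratedFDeriv ℝ k u) p volume := by
  have h0 : (0 : ℝ) < n := by exact_mod_cast hn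
  have hk2 : 2 ≤ k := by
    by_contra h
    have h1 : (k : ℝ) ≤ 1 := by
      have : k ≤ 1 := by omega
      exact_mod_cast this
    have h2 : ((k : ℝ) - 1) * p ≤ 0 := mul_nonpos_of_nonpos_of_nonneg (by linarith) p.2
    linarith
  obtain ⟨i, rfl⟩ : ∃ i, k = 2 + i := ⟨k - 2, by omega⟩
  obtain ⟨C, hC⟩ := gns hn M i
  have hex : ex n i ≤ p := by
    refine max_le hp ?_
    rw [div_le_iff₀ (by positivity), ← NNReal.coe_le_coe]
    push_cast at hk ⊢
    linarith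
  have hfin : volume (closedBall (0 : R2 n) M) ^ (1 / (ex n i : ℝ) - 1 / (p : ℝ)) ≠ ⊤ := by
    refine ENNReal.rpow_ne_top_of_nonneg ?_ measure_closedBall_lt_top.ne
    have h3 : (0 : ℝ) < ex n i := lt_of_lt_of_le one_pos (by exact_mod_cast ex_one i)
    have h4 : (ex n i : ℝ) ≤ p := by exact_mod_cast hex
    have := one_div_le_one_div_of_le h3 h4
    linarith
  refine ⟨C * volume (closedBall (0 : R2 n) M) ^ (1 / (ex n i : ℝ) - 1 / (p : ℝ)),
    ENNReal.mul_ne_top ENNReal.coe_ne_top hfin, fun u hu hs => ?_⟩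
  have h1 := holder_out (iter_cont hu (2 + i)).continuous (iter_out hs (2 + i)) hex
  calc _ ≤ C * eLpNorm (iteratedFDeriv ℝ (2 + i) u) (ex n i) volume := hC u hu hs
    _ ≤ C * (eLpNorm (iteratedFDeriv ℝ (2 + i) u) p volume *
        volume (closedBall (0 : R2 n) M) ^ (1 / (ex n i : ℝ) - 1 / (p : ℝ))) := by gcongr
    _ = _ := by ring

/-- the `W^{k,p}` distance -/
noncomputable def sobDist (k : ℕ) (p : ℝ≥0) (φ ψ : SympCt n) : ℝ≥0∞ :=
  ∑ j ∈ Finset.range (k + 1),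
    eLpNorm (iteratedFDeriv ℝ j (fun x => φ.toEquiv x - ψ.toEquiv x)) p volume

/-- `W^{k,p}`-continuous families -/
def SobCont (k : ℕ) (p : ℝ≥0) {X : Type*} [TopologicalSpace X] (f : X → SympCt n) : Prop :=
  ∀ x₀, (∃ K : Set (R2 n), IsCompact K ∧ ∀ᶠ x in 𝓝 x₀, f x ∈ supportedIn K) ∧
    Filter.Tendsto (fun x => sobDist k p (f x) (f x₀)) (𝓝 x₀) (𝓝 0)

theorem SobCont.ball {k : ℕ} {p : ℝ≥0} {X : Type*} [TopologicalSpace X] {f : X → SympCt n}
    (hf : SobCont k p f) (x₀ : X) : ∃ m : ℕ,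
    ∀ᶠ x in 𝓝 x₀, f x ∈ supportedIn (closedBall (0 : R2 n) m) := by
  obtain ⟨K, hK, h⟩ := (hf x₀).1
  obtain ⟨r, hr⟩ := hK.isBounded.subset_closedBall (0 : R2 n)
  obtain ⟨m, hm⟩ := exists_nat_ge r
  refine ⟨m, ?_⟩
  filter_upwards [h] with x hx y hy
  exact hx y fun h1 => hy (closedBall_subset_closedBall hm (hr h1))

theorem diff_out {φ ψ : SympCt n} {M : ℝ} (hφ : φ ∈ supportedIn (closedBall (0 : R2 n) M))
    (hψ : ψ ∈ supportedIn (closedBall (0 : R2 n) M)) :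
    ∀ x, x ∉ closedBall (0 : R2 n) M → (fun x => φ.toEquiv x - ψ.toEquiv x) x = 0 := by
  intro x hx
  simp only
  rw [hφ x hx, hψ x hx, sub_self]

theorem diff_smooth (φ ψ : SympCt n) :
    ContDiff ℝ ∞ (fun x => φ.toEquiv x - ψ.toEquiv x) := φ.smooth.sub ψ.smooth

theorem le_sobDist {k : ℕ} {p : ℝ≥0} (φ ψ : SympCt n) {j : ℕ} (hj : j ≤ k) :
    eLpNorm (iteratedFDeriv ℝ j (fun x => φ.toEquiv x - ψ.toEquiv x)) p volume ≤
      sobDist k p φ ψ := by
  unfold sobDist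
  exact Finset.single_le_sum (f := fun j =>
    eLpNorm (iteratedFDeriv ℝ j (fun x => φ.toEquiv x - ψ.toEquiv x)) p volume)
    (fun _ _ => zero_le) (Finset.mem_range.2 (Nat.lt_succ_of_le hj))

/-- `W^{k,p}`-continuous families are `L¹`-continuous -/
theorem SobCont.l1 {k : ℕ} {p : ℝ≥0} (hp : 1 ≤ p) {X : Type*} [TopologicalSpace X]
    {f : X → SympCt n} (hf : SobCont k p f) : L1Cont f := by
  intro x₀
  obtain ⟨m, hm⟩ := hf.ball x₀
  set V : ℝ≥0∞ := volume (closedBall (0 : R2 n) m) ^ (1 / ((1 : ℝ≥0) : ℝ) - 1 / (p : ℝ)) with hV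
  have hfin : V ≠ ⊤ := by
    refine ENNReal.rpow_ne_top_of_nonneg ?_ measure_closedBall_lt_top.ne
    have h4 : (1 : ℝ) ≤ p := by exact_mod_cast hp
    have := one_div_le_one_div_of_le one_pos h4
    simpa using this
  have h1 : ∀ᶠ x in 𝓝 x₀, ENNReal.ofReal (d1 (f x) (f x₀)) ≤ sobDist k p (f x) (f x₀) * V := by
    filter_upwards [hm] with x hx
    have hx0 := hm.self_of_nhds
    have h2 := holder_out (M := m) (diff_cont (f x) (f x₀)) (diff_out hx hx0) (q := 1) hp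
    have h3 : ENNReal.ofReal (d1 (f x) (f x₀)) =
        eLpNorm (fun z => (f x).toEquiv z - (f x₀).toEquiv z) (1 : ℝ≥0) volume := by
      rw [d1, ofReal_integral_norm_eq_lintegral_enorm (diff_int _ _)]
      simp [eLpNorm_one_eq_lintegral_enorm]
    rw [h3]
    refine h2.trans ?_
    gcongr
    refine le_trans (le_of_eq ?_) (le_sobDist (p := p) (f x) (f x₀) (Nat.zero_le k))
    exact eLpNorm_congr_norm_ae (Filter.Eventually.of_forall fun z =>
      (norm_iteratedFDeriv_zero (𝕜 := ℝ)).symm)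
  have h2 : Filter.Tendsto (fun x => sobDist k p (f x) (f x₀) * V) (𝓝 x₀) (𝓝 0) := by
    have := ENNReal.Tendsto.mul_const (hf x₀).2 (b := V) (Or.inr hfin)
    rwa [zero_mul] at this
  have h3 : Filter.Tendsto (fun x => ENNReal.ofReal (d1 (f x) (f x₀))) (𝓝 x₀) (𝓝 0) :=
    tendsto_of_tendsto_of_tendsto_of_le_of_le' tendsto_const_nhds h2
      (Filter.Eventually.of_forall fun _ => zero_le) h1
  have h4 := (ENNReal.tendsto_toReal ENNReal.zero_ne_top).comp h3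
  refine h4.congr fun x => ?_
  exact ENNReal.toReal_ofReal (d1_nonneg _ _)

end Pool.Agent.V5helper82.SB
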