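import Mathlib
import Pool.Agent.V5helper82.SB.Sob
import Pool.Agent.W71.EC.Dil

/-!
# The subcritical case: the Alexander trick
-/

set_option autoImplicit false

open scoped ContDiff Topology NNReal ENNReal
open MeasureTheory Set Metric

namespace Pool.Agent.V5helper82.SB

open Pool.Agent.W71.EC Pool.Agent.W5h83.HG Pool.Agent.W5h49.EC

variable {n : ℕ}

attribute [local instance] CubeAux.haar

/-- the Alexander trick -/
noncomputable def al (t : ℝ) (φ : SympCt n) : SympCt n :=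
  open Classical in if h : 0 < t then conjH φ 0 t h.ne' else one

theorem al_pos {t : ℝ} (h : 0 < t) (φ : SympCt n) (x : R2 n) :
    (al t φ).toEquiv x = t • φ.toEquiv (t⁻¹ • x) := by
  unfold al
  rw [dif_pos h, conjH_apply, zero_add, sub_zero]

theorem al_zero (φ : SympCt n) : al 0 φ = one := by
  unfold al
  rw [dif_neg (lt_irrefl _)]

theorem al_one (φ : SympCt n) : al 1 φ = φ := by
  refine SympCt.ext' fun x => ?_
  rw [al_pos one_pos, inv_one, one_smul, one_smul]

theorem al_id (t : ℝ) : al t (one : SympCt n) = one := by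
  rcases le_or_gt t 0 with h | h
  · unfold al
    rw [dif_neg (not_lt.2 h)]
  · refine SympCt.ext' fun x => ?_
    rw [al_pos h]
    change t • (t⁻¹ • x) = x
    rw [smul_smul, mul_inv_cancel₀ h.ne', one_smul]

theorem al_supp {φ : SympCt n} {m : ℝ} (hm : 0 ≤ m)
    (hφ : φ ∈ supportedIn (closedBall (0 : R2 n) m)) {t : ℝ} (ht : t ≤ 1) :
    al t φ ∈ supportedIn (closedBall (0 : R2 n) m) := by
  unfold al
  split_ifs with h
  · have h1 := conjH_supp hφ 0 h
    refine Pool.Agent.W71.EC.supp_mono (closedBall_subset_closedBall ?_) h1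
    nlinarith
  · intro x _
    rfl

/-- the iterated derivatives of a rescaled function -/
theorem iter_scale {u : R2 n → R2 n} (hu : ContDiff ℝ ∞ u) (t : ℝ) (j : ℕ) (x : R2 n) :
    iteratedFDeriv ℝ j (fun x => t • u (t⁻¹ • x)) x =
      (t * (t⁻¹) ^ j) • iteratedFDeriv ℝ j u (t⁻¹ • x) := by
  set L : R2 n →L[ℝ] R2 n := t⁻¹ • ContinuousLinearMap.id ℝ (R2 n) with hL
  have hj : ((j : ℕ) : WithTop ℕ∞) ≤ ((⊤ : ℕ∞) : WithTop ℕ∞) := by exact_mod_cast le_top
  have h1 : (fun x : R2 n => u (t⁻¹ • x)) = u ∘ L := rfl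
  have h2 : ContDiff ℝ ∞ (u ∘ L) := hu.comp L.contDiff
  have h3 : (fun x : R2 n => t • u (t⁻¹ • x)) = t • (u ∘ L) := rfl
  rw [h3, iteratedFDeriv_const_smul_apply (h2.of_le hj).contDiffAt,
    L.iteratedFDeriv_comp_right hu x hj, mul_smul]
  congr 1
  refine ContinuousMultilinearMap.ext fun v => ?_
  rw [ContinuousMultilinearMap.compContinuousLinearMap_apply]
  have h4 : (fun i => L (v i)) = fun i : Fin j => t⁻¹ • v i := rfl
  rw [h4, ContinuousMultilinearMap.map_smul_univ]
  simp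
  rfl

theorem eLp_scale {E : Type*} [NormedAddCommGroup E] {g : R2 n → E} (hg : Continuous g)
    {M : ℝ} (hs : ∀ x, x ∉ closedBall (0 : R2 n) M → g x = 0) {p : ℝ≥0}
    {t : ℝ} (ht : 0 < t) :
    eLpNorm (fun x => g (t⁻¹ • x)) p volume =
      ENNReal.ofReal (t ^ ((2 * n : ℝ) / p)) * eLpNorm g p volume := by
  have hm : AEStronglyMeasurable g (Measure.map (fun x : R2 n => t⁻¹ • x) volume) :=
    (hg.stronglyMeasurable_of_hasCompactSupport
      (HasCompactSupport.intro (isCompact_closedBall (0 : R2 n) M) hs)).aestronglyMeasurable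
  have h1 := eLpNorm_map_measure (p := (p : ℝ≥0∞)) hm
    (measurable_const_smul t⁻¹).aemeasurable
  have h2 : (fun x => g (t⁻¹ • x)) = g ∘ (fun x : R2 n => t⁻¹ • x) := rfl
  rw [h2, ← h1, Measure.map_addHaar_smul _ (inv_ne_zero ht.ne'),
    eLpNorm_smul_measure_of_ne_top ENNReal.coe_ne_top, smul_eq_mul]
  congr 1
  rw [finrank_R2, inv_pow, inv_inv, abs_of_pos (by positivity),
    ENNReal.ofReal_rpow_of_pos (by positivity), ← Real.rpow_natCast, ← Real.rpow_mul ht.le]
  congr 2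
  push_cast
  simp
  ring

theorem eLp_zero {E : Type*} [NormedAddCommGroup E] {g : R2 n → E} (h : ∀ x, g x = 0)
    (p : ℝ≥0∞) : eLpNorm g p volume = 0 := by
  have h1 : g = 0 := funext h
  rw [h1]
  exact eLpNorm_zero

theorem eLp_tri {E : Type*} [NormedAddCommGroup E] {a b c : R2 n → E}
    (h : ∀ x, a x = b x + c x) (hb : AEStronglyMeasurable b volume)
    (hc : AEStronglyMeasurable c volume) {p : ℝ≥0∞} (hp : 1 ≤ p) :
    eLpNorm a p volume ≤ eLpNorm b p volume + eLpNorm c p volume := by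
  have h1 : a = b + c := funext h
  rw [h1]
  exact eLpNorm_add_le hb hc hp

theorem sob_self (k : ℕ) (p : ℝ≥0) (φ : SympCt n) : sobDist k p φ φ = 0 := by
  unfold sobDist
  refine Finset.sum_eq_zero fun j _ => ?_
  refine eLp_zero (fun x => ?_) _
  have h1 : (fun x => φ.toEquiv x - φ.toEquiv x) = fun _ => (0 : R2 n) := by
    funext x
    exact sub_self _
  rw [h1, iteratedFDeriv_fun_zero (𝕜 := ℝ) (E := R2 n) (F := R2 n) (n := j)]
  rfl

theorem iter_diff (φ ψ : SympCt n) (j : ℕ) :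
    iteratedFDeriv ℝ j (fun x => φ.toEquiv x - ψ.toEquiv x) =
      iteratedFDeriv ℝ j φ.toEquiv - iteratedFDeriv ℝ j ψ.toEquiv :=
  iteratedFDeriv_sub (f := φ.toEquiv) (g := ψ.toEquiv)
    (φ.smooth.of_le (by exact_mod_cast le_top)) (ψ.smooth.of_le (by exact_mod_cast le_top))

theorem iter_diff_cont (φ ψ : SympCt n) (j : ℕ) :
    Continuous (iteratedFDeriv ℝ j (fun x => φ.toEquiv x - ψ.toEquiv x)) :=
  (iter_cont (diff_smooth φ ψ) j).continuous

theorem iter_diff_cpt (φ ψ : SympCt n) (j : ℕ) :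
    HasCompactSupport (iteratedFDeriv ℝ j (fun x => φ.toEquiv x - ψ.toEquiv x)) :=
  (diff_cpt φ ψ).iteratedFDeriv (𝕜 := ℝ) j

theorem iter_diff_meas (φ ψ : SympCt n) (j : ℕ) : AEStronglyMeasurable
    (iteratedFDeriv ℝ j (fun x => φ.toEquiv x - ψ.toEquiv x)) volume :=
  ((iter_diff_cont φ ψ j).stronglyMeasurable_of_hasCompactSupport
    (iter_diff_cpt φ ψ j)).aestronglyMeasurable

theorem sob_triangle {k : ℕ} {p : ℝ≥0} (hp : 1 ≤ p) (φ ψ χ : SympCt n) :
    sobDist k p φ χ ≤ sobDist k p φ ψ + sobDist k p ψ χ := by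
  unfold sobDist
  rw [← Finset.sum_add_distrib]
  refine Finset.sum_le_sum fun j _ => ?_
  refine eLp_tri (fun x => ?_) (iter_diff_meas φ ψ j) (iter_diff_meas ψ χ j)
    (by exact_mod_cast hp)
  rw [iter_diff, iter_diff, iter_diff]
  simp only [Pi.sub_apply]
  abel

theorem sob_fin (k : ℕ) (p : ℝ≥0) (φ ψ : SympCt n) : sobDist k p φ ψ ≠ ⊤ := by
  unfold sobDist
  refine (ENNReal.sum_lt_top.2 fun j _ => ?_).ne
  exact ((iter_diff_cont φ ψ j).memLp_of_hasCompactSupport (iter_diff_cpt φ ψ j)).2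

/-- contraction of the distances -/
theorem sob_al {k : ℕ} {p : ℝ≥0} {ε : ℝ} (hε : ε = 1 - k + (2 * n : ℝ) / p)
    (φ ψ : SympCt n) {t : ℝ} (ht0 : 0 ≤ t) (ht1 : t ≤ 1) :
    sobDist k p (al t φ) (al t ψ) ≤ ENNReal.ofReal (t ^ ε) * sobDist k p φ ψ := by
  rcases ht0.eq_or_lt with h | h
  · rw [← h, al_zero, al_zero, sob_self]
    exact zero_le
  obtain ⟨m, hm⟩ := (diff_cpt φ ψ).isCompact.isBounded.subset_closedBall (0 : R2 n)
  have hout : ∀ x, x ∉ closedBall (0 : R2 n) m →
      (fun x => φ.toEquiv x - ψ.toEquiv x) x = 0 := by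
    intro x hx
    by_contra h1
    exact hx (hm (subset_tsupport _ h1))
  unfold sobDist
  rw [Finset.mul_sum]
  refine Finset.sum_le_sum fun j hj => ?_
  have hjk : (j : ℝ) ≤ k := by exact_mod_cast Nat.lt_succ_iff.1 (Finset.mem_range.1 hj)
  have h1 : (fun x => (al t φ).toEquiv x - (al t ψ).toEquiv x) = fun x : R2 n =>
      t • (fun x => φ.toEquiv x - ψ.toEquiv x) (t⁻¹ • x) := by
    funext x
    rw [al_pos h, al_pos h, smul_sub]
  have h2 : iteratedFDeriv ℝ j (fun x => (al t φ).toEquiv x - (al t ψ).toEquiv x) =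
      fun x : R2 n => (t * (t⁻¹) ^ j) •
        iteratedFDeriv ℝ j (fun x => φ.toEquiv x - ψ.toEquiv x) (t⁻¹ • x) := by
    rw [h1]
    funext x
    exact iter_scale (diff_smooth φ ψ) t j x
  have h3 : eLpNorm (fun x : R2 n => (t * (t⁻¹) ^ j) •
        iteratedFDeriv ℝ j (fun x => φ.toEquiv x - ψ.toEquiv x) (t⁻¹ • x)) p volume =
      ENNReal.ofReal (t * (t⁻¹) ^ j) * (ENNReal.ofReal (t ^ ((2 * n : ℝ) / p)) *
        eLpNorm (iteratedFDeriv ℝ j (fun x => φ.toEquiv x - ψ.toEquiv x)) p volume) := by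
    rw [← eLp_scale (iter_diff_cont φ ψ j) (iter_out hout j) h]
    have h4 := eLpNorm_const_smul (t * (t⁻¹) ^ j) (fun x : R2 n =>
      iteratedFDeriv ℝ j (fun x => φ.toEquiv x - ψ.toEquiv x) (t⁻¹ • x)) (p : ℝ≥0∞) volume
    have h5 : ‖t * (t⁻¹) ^ j‖ₑ = ENNReal.ofReal (t * (t⁻¹) ^ j) :=
      Real.enorm_of_nonneg (by positivity)
    rw [h5] at h4
    exact h4
  rw [h2, h3, ← mul_assoc, ← ENNReal.ofReal_mul (by positivity)]
  gcongr
  have h6 : t * (t⁻¹) ^ j * t ^ ((2 * n : ℝ) / p) = t ^ (1 - j + (2 * n : ℝ) / p) := by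
    rw [Real.rpow_add h, Real.rpow_sub h, Real.rpow_one, Real.rpow_natCast, inv_pow]
    rfl
  rw [h6, hε]
  exact Real.rpow_le_rpow_of_exponent_ge h ht1 (by linarith)

/-- locally uniform convergence with uniform supports implies convergence in `L^p` -/
theorem eLp_small {T : Type*} [TopologicalSpace T] {E : Type*} [NormedAddCommGroup E]
    {G : T → R2 n → E} {t₀ : T} {M : ℝ} (hG : ∀ x, ContinuousAt (Function.uncurry G) (t₀, x))
    (hs : ∀ᶠ t in 𝓝 t₀, ∀ x, x ∉ closedBall (0 : R2 n) M → G t x - G t₀ x = 0) (p : ℝ≥0) :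
    Filter.Tendsto (fun t => eLpNorm (fun x => G t x - G t₀ x) p volume) (𝓝 t₀) (𝓝 0) := by
  set V : ℝ≥0∞ := volume (closedBall (0 : R2 n) M) ^ ((p : ℝ≥0∞).toReal)⁻¹ with hV
  have hVf : V ≠ ⊤ := ENNReal.rpow_ne_top_of_nonneg (by positivity) measure_closedBall_lt_top.ne
  have key : ∀ δ : ℝ, 0 < δ →
      ∀ᶠ t in 𝓝 t₀, eLpNorm (fun x => G t x - G t₀ x) p volume ≤ V * ENNReal.ofReal δ := by
    intro δ hδ
    have h1 : ∀ᶠ t in 𝓝 t₀, ∀ x ∈ closedBall (0 : R2 n) M, ‖G t x - G t₀ x‖ < δ := by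
      refine (isCompact_closedBall (0 : R2 n) M).eventually_forall_of_forall_eventually
        fun x _ => ?_
      have h2 : ContinuousAt (fun z : T × R2 n => G t₀ z.2) (t₀, x) := by
        have h3 : ContinuousAt (fun z : T × R2 n => ((t₀, z.2) : T × R2 n)) (t₀, x) :=
          (continuous_const.prodMk continuous_snd).continuousAt
        exact ContinuousAt.comp (g := Function.uncurry G)
          (f := fun z : T × R2 n => ((t₀, z.2) : T × R2 n)) (x := (t₀, x)) (hG x) h3
      have h4 : ContinuousAt (fun z : T × R2 n => ‖G z.1 z.2 - G t₀ z.2‖) (t₀, x) :=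
        ((hG x).sub h2).norm
      have h5 : ‖G t₀ x - G t₀ x‖ < δ := by
        rw [sub_self, norm_zero]
        exact hδ
      exact h4.eventually (gt_mem_nhds h5)
    filter_upwards [h1, hs] with t ht1 ht2
    have hsub : Function.support (fun x => G t x - G t₀ x) ⊆ closedBall (0 : R2 n) M :=
      fun x hx => by
        by_contra h
        exact hx (ht2 x h)
    rw [← eLpNorm_restrict_eq_of_support_subset (p := (p : ℝ≥0∞)) hsub]
    have h6 := eLpNorm_le_of_ae_bound (μ := volume.restrict (closedBall (0 : R2 n) M))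
      (p := (p : ℝ≥0∞)) (f := fun x => G t x - G t₀ x) (C := δ)
      (Filter.Eventually.of_forall fun x => by
        by_cases hx : x ∈ closedBall (0 : R2 n) M
        · exact (ht1 x hx).le
        · rw [ht2 x hx, norm_zero]
          exact hδ.le)
    rwa [Measure.restrict_apply_univ] at h6
  rw [ENNReal.tendsto_nhds_zero]
  intro ε hε
  obtain ⟨δ, hδ, hδε⟩ : ∃ δ : ℝ, 0 < δ ∧ V * ENNReal.ofReal δ ≤ ε := by
    have h1 : Filter.Tendsto (fun δ : ℝ => V * ENNReal.ofReal δ) (𝓝[>] 0) (𝓝 0) := by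
      have h2 := ENNReal.Tendsto.const_mul (a := V) (ENNReal.tendsto_ofReal
        (Filter.tendsto_id (x := 𝓝 (0 : ℝ)))) (Or.inr hVf)
      rw [ENNReal.ofReal_zero, mul_zero] at h2
      exact h2.mono_left nhdsWithin_le_nhds
    rw [ENNReal.tendsto_nhds_zero] at h1
    obtain ⟨δ, h3, h4⟩ := ((h1 ε hε).and self_mem_nhdsWithin).exists
    exact ⟨δ, h4, h3⟩
  filter_upwards [key δ hδ] with t ht
  exact ht.trans hδε

/-- pointwise criterion for convergence in the Sobolev distance -/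
theorem sob_small {T : Type*} [TopologicalSpace T] {f : T → SympCt n} {t₀ : T} {m : ℝ}
    (hs : ∀ᶠ t in 𝓝 t₀, f t ∈ supportedIn (closedBall (0 : R2 n) m))
    (hG : ∀ (j : ℕ) x, ContinuousAt
      (fun z : T × R2 n => iteratedFDeriv ℝ j (f z.1).toEquiv z.2) (t₀, x)) (k : ℕ) (p : ℝ≥0) :
    Filter.Tendsto (fun t => sobDist k p (f t) (f t₀)) (𝓝 t₀) (𝓝 0) := by
  unfold sobDist
  have h1 : Filter.Tendsto (fun t => ∑ j ∈ Finset.range (k + 1), eLpNorm
      (iteratedFDeriv ℝ j (fun x => (f t).toEquiv x - (f t₀).toEquiv x)) p volume) (𝓝 t₀)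
      (𝓝 (∑ j ∈ Finset.range (k + 1), 0)) := by
    refine tendsto_finsetSum _ fun j _ => ?_
    have h2 := eLp_small (G := fun t => iteratedFDeriv ℝ j (f t).toEquiv) (t₀ := t₀) (M := m)
      (hG j) ?_ p
    · refine h2.congr fun t => ?_
      rw [iter_diff]
      rfl
    · filter_upwards [hs] with t ht x hx
      have h3 := iter_out (diff_out ht hs.self_of_nhds) j x hx
      rw [iter_diff] at h3
      exact h3
  simpa using h1

/-- families which are continuous in the `C^∞` topology are continuous in all Sobolev norms -/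
theorem smooth_sob {X : Type} [TopologicalSpace X] [CompactSpace X] (f : C(X, SympCt n))
    (k : ℕ) (p : ℝ≥0) : SobCont k p f := by
  obtain ⟨m, hm⟩ := supp_unif (isCompact_range f.continuous)
  intro x₀
  refine ⟨⟨closedBall (0 : R2 n) m, isCompact_closedBall _ _,
    Filter.Eventually.of_forall fun x => hm _ ⟨x, rfl⟩⟩, ?_⟩
  refine sob_small (m := m) (Filter.Eventually.of_forall fun x => hm _ ⟨x, rfl⟩) ?_ k p
  intro j x
  exact (JC.iter j (JS.of_continuous f.continuous)).continuousAt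

/-- **The subcritical case.** -/
theorem alex {k : ℕ} {p : ℝ≥0} (hp : 1 ≤ p) (hk : ((k : ℝ) - 1) * p < 2 * n)
    {X : Type*} [TopologicalSpace X] {f : X → SympCt n} (hf : SobCont k p f) :
    SobCont k p (fun z : unitInterval × X => al z.1 (f z.2)) := by
  have hp0 : (0 : ℝ) < p := lt_of_lt_of_le one_pos (by exact_mod_cast hp)
  set ε : ℝ := 1 - k + (2 * n : ℝ) / p with hε
  have hε0 : 0 < ε := by
    have : (k : ℝ) - 1 < 2 * n / p := (lt_div_iff₀ hp0).2 hk
    linarith
  rintro ⟨t₀, x₀⟩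
  obtain ⟨m, hm⟩ := hf.ball x₀
  have hm' : ∀ᶠ z : unitInterval × X in 𝓝 (t₀, x₀),
      f z.2 ∈ supportedIn (closedBall (0 : R2 n) m) :=
    (continuous_snd.tendsto ((t₀, x₀) : unitInterval × X)).eventually hm
  refine ⟨⟨closedBall (0 : R2 n) m, isCompact_closedBall _ _, ?_⟩, ?_⟩
  · filter_upwards [hm'] with z hz
    exact al_supp m.cast_nonneg hz z.1.2.2
  -- continuity in `t` for a fixed map
  have h1 : Filter.Tendsto (fun t : unitInterval => sobDist k p (al t (f x₀)) (al t₀ (f x₀)))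
      (𝓝 t₀) (𝓝 0) := by
    rcases t₀.2.1.eq_or_lt with h0 | h0
    · have h2 : Filter.Tendsto (fun t : unitInterval => ENNReal.ofReal ((t : ℝ) ^ ε) *
          sobDist k p (f x₀) one) (𝓝 t₀) (𝓝 0) := by
        have h3 : Filter.Tendsto (fun t : unitInterval => ENNReal.ofReal ((t : ℝ) ^ ε)) (𝓝 t₀)
            (𝓝 (ENNReal.ofReal ((t₀ : ℝ) ^ ε))) :=
          ENNReal.tendsto_ofReal (((continuous_subtype_val (p := fun x : ℝ =>
            x ∈ unitInterval)).tendsto t₀).rpow_const (Or.inr hε0.le))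
        have h4 := ENNReal.Tendsto.mul_const h3 (b := sobDist k p (f x₀) one)
          (Or.inr (sob_fin k p _ _))
        rwa [← h0, Real.zero_rpow hε0.ne', ENNReal.ofReal_zero, zero_mul] at h4
      refine tendsto_of_tendsto_of_tendsto_of_le_of_le tendsto_const_nhds h2
        (fun t => zero_le) fun t => ?_
      have h3 := sob_al hε (f x₀) one t.2.1 t.2.2
      rw [al_id] at h3
      rw [← h0, al_zero]
      exact h3
    · refine sob_small (f := fun t : unitInterval => al t (f x₀)) (m := m)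
        (Filter.Eventually.of_forall fun t => al_supp m.cast_nonneg hm.self_of_nhds t.2.2) ?_ k p
      intro j x
      have hev : ∀ᶠ z : unitInterval × R2 n in 𝓝 (t₀, x), (0 : ℝ) < z.1 :=
        (continuous_subtype_val.comp continuous_fst).continuousAt.eventually (lt_mem_nhds h0)
      have h2 : (fun z : unitInterval × R2 n => iteratedFDeriv ℝ j (al z.1 (f x₀)).toEquiv z.2)
          =ᶠ[𝓝 (t₀, x)] fun z => ((z.1 : ℝ) * ((z.1 : ℝ)⁻¹) ^ j) •
            iteratedFDeriv ℝ j (f x₀).toEquiv ((z.1 : ℝ)⁻¹ • z.2) := by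
        filter_upwards [hev] with z hz
        have h3 : ((al z.1 (f x₀)).toEquiv : R2 n → R2 n) = fun x =>
            (z.1 : ℝ) • (f x₀).toEquiv ((z.1 : ℝ)⁻¹ • x) := funext fun x => al_pos hz _ x
        rw [h3]
        exact iter_scale (f x₀).smooth _ j z.2
      have e1 : ContinuousAt (fun z : unitInterval × R2 n => (z.1 : ℝ)) (t₀, x) :=
        (continuous_subtype_val.comp continuous_fst).continuousAt
      have e2 : ContinuousAt (fun z : unitInterval × R2 n => (z.1 : ℝ)⁻¹) (t₀, x) :=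
        e1.inv₀ h0.ne'
      have e3 : Continuous (iteratedFDeriv ℝ j (f x₀).toEquiv) :=
        (f x₀).smooth.continuous_iteratedFDeriv (by exact_mod_cast le_top)
      refine ContinuousAt.congr ?_ h2.symm
      exact (e1.mul (e2.pow j)).smul (e3.continuousAt.comp (e2.smul continuous_snd.continuousAt))
  have h2 : Filter.Tendsto (fun z : unitInterval × X => sobDist k p (f z.2) (f x₀) +
      sobDist k p (al z.1 (f x₀)) (al t₀ (f x₀))) (𝓝 (t₀, x₀)) (𝓝 0) := by
    have e1 := ((hf x₀).2.comp (continuous_snd.tendsto ((t₀, x₀) : unitInterval × X))).add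
      (h1.comp (continuous_fst.tendsto ((t₀, x₀) : unitInterval × X)))
    rw [add_zero] at e1
    exact e1
  refine tendsto_of_tendsto_of_tendsto_of_le_of_le tendsto_const_nhds h2
    (fun z => zero_le) fun z => ?_
  refine (sob_triangle hp _ (al z.1 (f x₀)) _).trans (add_le_add ?_ le_rfl)
  refine (sob_al hε (f z.2) (f x₀) z.1.2.1 z.1.2.2).trans ?_
  calc ENNReal.ofReal ((z.1 : ℝ) ^ ε) * sobDist k p (f z.2) (f x₀)
      ≤ 1 * sobDist k p (f z.2) (f x₀) := by
        gcongr
        rw [← ENNReal.ofReal_one]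
        exact ENNReal.ofReal_le_ofReal (Real.rpow_le_one z.1.2.1 z.1.2.2 hε0.le)
    _ = _ := one_mul _

end Pool.Agent.V5helper82.SB
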