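import Mathlib
import Pool.Agent.V5helper82.SB.Sob

/-!
# Critical and supercritical Sobolev norms
-/

set_option autoImplicit false

open scoped ContDiff Topology NNReal ENNReal
open MeasureTheory Set Metric

namespace Pool.Agent.V5helper82.SB

open Pool.Agent.W71.EC Pool.Agent.W5h83.HG Pool.Agent.W5h49.EC

variable {n : ℕ}

attribute [local instance] CubeAux.haar

theorem int_pow {E : Type*} [NormedAddCommGroup E] {g : R2 n → E} (hg : Continuous g)
    (hc : HasCompactSupport g) {m : ℕ} (hm : 0 < m) :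
    ENNReal.ofReal (∫ y, ‖g y‖ ^ m) = eLpNorm g ((m : ℕ) : ℝ≥0) volume ^ m := by
  have hm' : (m : ℝ) ≠ 0 := by exact_mod_cast hm.ne'
  have h0 : (((m : ℕ) : ℝ≥0) : ℝ≥0∞) ≠ 0 := by exact_mod_cast hm.ne'
  rw [eLpNorm_eq_lintegral_rpow_enorm_toReal h0 ENNReal.coe_ne_top]
  have h1 : (((m : ℕ) : ℝ≥0) : ℝ≥0∞).toReal = m := by simp
  rw [h1, ← ENNReal.rpow_natCast, ← ENNReal.rpow_mul, one_div, inv_mul_cancel₀ hm',
    ENNReal.rpow_one]
  rw [ofReal_integral_eq_lintegral_ofReal]
  · refine lintegral_congr fun y => ?_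
    rw [ENNReal.ofReal_pow (norm_nonneg _), ofReal_norm, ENNReal.rpow_natCast]
  · refine (hg.norm.pow m).integrable_of_hasCompactSupport ?_
    refine hc.norm.comp_left (g := fun z => z ^ m) ?_
    exact zero_pow hm.ne'
  · exact Filter.Eventually.of_forall fun y => by positivity

theorem en_eq (φ : SympCt n) (y : R2 n) : en φ y = ‖iteratedFDeriv ℝ 2 φ.toEquiv y‖ := by
  unfold en
  rw [← norm_iteratedFDeriv_fderiv, norm_iteratedFDeriv_one]

theorem en_le (φ ψ : SympCt n) (y : R2 n) :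
    en φ y ≤ en ψ y + ‖iteratedFDeriv ℝ 2 (fun x => φ.toEquiv x - ψ.toEquiv x) y‖ := by
  rw [en_eq, en_eq]
  have h1 : iteratedFDeriv ℝ 2 (fun x => φ.toEquiv x - ψ.toEquiv x) =
      iteratedFDeriv ℝ 2 φ.toEquiv - iteratedFDeriv ℝ 2 ψ.toEquiv :=
    iteratedFDeriv_sub (f := φ.toEquiv) (g := ψ.toEquiv)
      (φ.smooth.of_le (by norm_cast))
      (ψ.smooth.of_le (by norm_cast))
  rw [h1, Pi.sub_apply]
  have := norm_add_le (iteratedFDeriv ℝ 2 ψ.toEquiv y)
    (iteratedFDeriv ℝ 2 φ.toEquiv y - iteratedFDeriv ℝ 2 ψ.toEquiv y)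
  rwa [add_sub_cancel] at this

theorem EnLe.mono {c R R' : ℝ} {φ : SympCt n} (h : EnLe c R φ) (hR : R' ≤ R) : EnLe c R' φ := by
  intro x
  refine (setIntegral_mono_set ?_ ?_ ?_).trans (h x)
  · exact ((en_cont φ).pow _).continuousOn.integrableOn_compact (isCompact_closedBall x R)
      |>.mono_set Metric.ball_subset_closedBall
  · exact Filter.Eventually.of_forall fun y => pow_nonneg (en_nonneg φ y) _
  · exact (Metric.ball_subset_ball hR).eventuallyLE

/-- uniformly small local energy -/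
theorem local_energy (hn : 0 < n) {k : ℕ} {p : ℝ≥0} (hp : 1 ≤ p)
    (hk : (2 * n : ℝ) ≤ ((k : ℝ) - 1) * p) {X : Type*} [TopologicalSpace X] {f : X → SympCt n}
    (hf : SobCont k p f) {c : ℝ} (hc : 0 < c) (x₀ : X) :
    ∃ R : ℝ, 0 < R ∧ ∀ᶠ x in 𝓝 x₀, EnLe c R (f x) := by
  have hn' : (0 : ℝ) < n := by exact_mod_cast hn
  obtain ⟨m, hm⟩ := hf.ball x₀
  obtain ⟨C, hC, hdown⟩ := down hn hp hk (m : ℝ)
  set q : ℕ := 2 * n with hq
  have hq0 : 0 < q := by omega
  -- bound for the second derivative at `x₀`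
  have hcs : HasCompactSupport (en (f x₀)) :=
    HasCompactSupport.intro (isCompact_closedBall (0 : R2 n) m)
      (fun y hy => en_out hm.self_of_nhds hy)
  obtain ⟨S, hS⟩ := hcs.exists_bound_of_continuous (en_cont (f x₀))
  have hS0 : 0 ≤ S := (norm_nonneg _).trans (hS 0)
  have hS' : ∀ y, en (f x₀) y ≤ S := fun y => (le_abs_self _).trans (hS y)
  set a : ℝ := 2 ^ (q - 1) with ha
  have ha0 : 0 < a := by positivity
  -- the radius
  set V : ℝ := volume.real (ball (0 : R2 n) 1) with hV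
  have hV0 : 0 < V := CubeAux.pos_ball
  set b : ℝ := c / (2 * a * (S ^ q * V + 1)) with hb
  have hb0 : 0 < b := by positivity
  set R : ℝ := min 1 b with hR
  have hR0 : 0 < R := lt_min one_pos hb0
  refine ⟨R, hR0, ?_⟩
  have h1 : Filter.Tendsto (fun x => C * sobDist k p (f x) (f x₀)) (𝓝 x₀) (𝓝 0) := by
    have := ENNReal.Tendsto.const_mul (hf x₀).2 (a := C) (Or.inr hC)
    rwa [mul_zero] at this
  have h2 : Filter.Tendsto (fun x => a * ((C * sobDist k p (f x) (f x₀)) ^ q).toReal) (𝓝 x₀)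
      (𝓝 0) := by
    have e1 := (ENNReal.tendsto_toReal (a := 0) ENNReal.zero_ne_top).comp
      (((ENNReal.continuous_pow q).tendsto 0).comp h1 |>.trans (by
        rw [zero_pow hq0.ne']))
    have e2 := e1.const_mul a
    rw [ENNReal.toReal_zero, mul_zero] at e2
    exact e2
  have h3 : ∀ᶠ x in 𝓝 x₀, C * sobDist k p (f x) (f x₀) < ⊤ :=
    h1.eventually (gt_mem_nhds (by simp))
  filter_upwards [hm, h2.eventually (gt_mem_nhds (show (0 : ℝ) < c / 2 by positivity)), h3]
    with x hx hx2 hx3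
  intro y
  set B := ball y R with hB
  have hBv : volume.real B ≤ R * V := by
    rw [hB, hV, measureReal_def, Measure.addHaar_ball_of_pos _ _ hR0, ENNReal.toReal_mul,
      ENNReal.toReal_ofReal (by positivity), finrank_R2]
    have h5 : R ^ (2 * n) ≤ R := by
      calc R ^ (2 * n) ≤ R ^ 1 := pow_le_pow_of_le_one hR0.le (min_le_left _ _) (by omega)
        _ = R := pow_one R
    exact mul_le_mul_of_nonneg_right h5 hV0.le
  have hint : ∀ {g : R2 n → ℝ}, Continuous g → IntegrableOn g B := fun hg =>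
    (hg.continuousOn.integrableOn_compact (isCompact_closedBall y R)).mono_set
      Metric.ball_subset_closedBall
  set d : R2 n → ℝ := fun z =>
    ‖iteratedFDeriv ℝ 2 (fun w => (f x).toEquiv w - (f x₀).toEquiv w) z‖ with hd
  have hdc0 : Continuous (iteratedFDeriv ℝ 2 (fun w => (f x).toEquiv w - (f x₀).toEquiv w)) :=
    (iter_cont (diff_smooth (f x) (f x₀)) 2).continuous
  have hdc : Continuous d := hdc0.norm
  have hdout := iter_out (diff_out hx hm.self_of_nhds) 2
  have hdcs : HasCompactSupport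
      (iteratedFDeriv ℝ 2 (fun w => (f x).toEquiv w - (f x₀).toEquiv w)) :=
    HasCompactSupport.intro (isCompact_closedBall (0 : R2 n) m) hdout
  have e1 : ∫ z in B, en (f x) z ^ q ≤ ∫ z in B, a * (en (f x₀) z ^ q + d z ^ q) := by
    refine setIntegral_mono (hint ((en_cont _).pow q))
      (hint ((((en_cont _).pow q).add (hdc.pow q)).const_mul a)) fun z => ?_
    calc en (f x) z ^ q ≤ (en (f x₀) z + d z) ^ q := by
          have h5 := en_nonneg (f x) z
          have h6 := en_le (f x) (f x₀) z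
          gcongr
      _ ≤ a * (en (f x₀) z ^ q + d z ^ q) := by
          rw [ha]
          exact add_pow_le (en_nonneg _ _) (norm_nonneg _) q
  have e2 : ∫ z in B, a * (en (f x₀) z ^ q + d z ^ q) =
      a * (∫ z in B, en (f x₀) z ^ q) + a * ∫ z in B, d z ^ q := by
    have h5 : IntegrableOn (fun z => en (f x₀) z ^ q) B := hint ((en_cont _).pow q)
    have h6 : IntegrableOn (fun z => d z ^ q) B := hint (hdc.pow q)
    rw [integral_const_mul, integral_add h5 h6, mul_add]
  have e3 : ∫ z in B, en (f x₀) z ^ q ≤ R * V * S ^ q := by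
    calc ∫ z in B, en (f x₀) z ^ q ≤ ∫ z in B, S ^ q := by
          refine setIntegral_mono (hint ((en_cont _).pow q)) (hint continuous_const) fun z => ?_
          have h5 := en_nonneg (f x₀) z
          have h6 := hS' z
          simp only
          gcongr
      _ = volume.real B * S ^ q := by rw [setIntegral_const, smul_eq_mul]
      _ ≤ R * V * S ^ q := by gcongr
  have e4 : a * (R * V * S ^ q) ≤ c / 2 := by
    have h5 : R ≤ b := min_le_right _ _
    have h6 : a * (b * (S ^ q * V + 1)) = c / 2 := by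
      rw [hb]
      field_simp
    calc a * (R * V * S ^ q) = a * (R * (S ^ q * V)) := by ring
      _ ≤ a * (b * (S ^ q * V + 1)) := by
          have h7 : 0 ≤ S ^ q * V := by positivity
          gcongr
          linarith
      _ = c / 2 := h6
  have e5 : ∫ z in B, d z ^ q ≤ ((C * sobDist k p (f x) (f x₀)) ^ q).toReal := by
    have h5 : Integrable (fun z => d z ^ q) := by
      refine (hdc.pow q).integrable_of_hasCompactSupport ?_
      refine HasCompactSupport.intro (isCompact_closedBall (0 : R2 n) m) fun z hz => ?_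
      change ‖iteratedFDeriv ℝ 2 (fun w => (f x).toEquiv w - (f x₀).toEquiv w) z‖ ^ q = 0
      rw [hdout z hz, norm_zero, zero_pow hq0.ne']
    have h6 : ∫ z in B, d z ^ q ≤ ∫ z, d z ^ q :=
      setIntegral_le_integral h5 (Filter.Eventually.of_forall fun z => by
        simp only [hd, Pi.zero_apply]
        positivity)
    refine h6.trans ?_
    have h7 := int_pow hdc0 hdcs hq0
    have h8 : eLpNorm (iteratedFDeriv ℝ 2 (fun w => (f x).toEquiv w - (f x₀).toEquiv w))
        ((q : ℕ) : ℝ≥0) volume ≤ C * sobDist k p (f x) (f x₀) := by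
      refine (hdown _ (diff_smooth _ _) (diff_out hx hm.self_of_nhds)).trans ?_
      gcongr
      exact le_sobDist _ _ le_rfl
    have h9 : ∫ z, d z ^ q = (ENNReal.ofReal (∫ z, d z ^ q)).toReal := by
      rw [ENNReal.toReal_ofReal]
      exact integral_nonneg fun z => by
        simp only [hd, Pi.zero_apply]
        positivity
    rw [h9, h7]
    refine ENNReal.toReal_mono (ENNReal.pow_ne_top hx3.ne) ?_
    gcongr
  calc ∫ z in B, en (f x) z ^ (2 * n) ≤ a * (∫ z in B, en (f x₀) z ^ q) +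
        a * ∫ z in B, d z ^ q := e1.trans e2.le
    _ ≤ a * (R * V * S ^ q) + a * ((C * sobDist k p (f x) (f x₀)) ^ q).toReal := by gcongr
    _ ≤ c / 2 + c / 2 := add_le_add e4 hx2.le
    _ = c := by ring

/-- **The critical case.** -/
theorem crit (hn : 0 < n) {k : ℕ} {p : ℝ≥0} (hp : 1 ≤ p)
    (hk : (2 * n : ℝ) ≤ ((k : ℝ) - 1) * p) {C : Type} [TopologicalSpace C] [CompactSpace C]
    (f g : C(C, SympCt n)) (h : C × unitInterval → SympCt n) (hh : SobCont k p h)
    (hf : ∀ c, h (c, 0) = f c) (hg : ∀ c, h (c, 1) = g c) :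
    f.HomotopicRel g {c | ∀ t, h (c, t) = one} := by
  obtain ⟨c, hc, hosc⟩ := energy_osc (n := n) (poin2 n (poin1 n)) (θ := 1 / 2) (by norm_num)
  obtain ⟨R, hR, hRe⟩ : ∃ R : ℝ, 0 < R ∧ ∀ z ∈ (univ : Set (C × unitInterval)),
      EnLe c R (h z) := by
    refine isCompact_univ.induction_on (p := fun s => ∃ R : ℝ, 0 < R ∧ ∀ z ∈ s,
      EnLe c R (h z)) ⟨1, one_pos, fun z hz => hz.elim⟩ ?_ ?_ ?_
    · rintro s t hst ⟨R, hR, h1⟩
      exact ⟨R, hR, fun z hz => h1 z (hst hz)⟩
    · rintro s t ⟨R, hR, h1⟩ ⟨R', hR', h2⟩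
      refine ⟨min R R', lt_min hR hR', fun z hz => ?_⟩
      rcases hz with hz | hz
      · exact EnLe.mono (h1 z hz) (min_le_left _ _)
      · exact EnLe.mono (h2 z hz) (min_le_right _ _)
    · intro z _
      obtain ⟨R, hR, h1⟩ := local_energy hn hp hk hh hc z
      exact ⟨{w | EnLe c R (h w)}, mem_nhdsWithin_of_mem_nhds h1, R, hR, fun w hw => hw⟩
  obtain ⟨m, hm⟩ : ∃ m : ℕ, ∀ z ∈ (univ : Set (C × unitInterval)),
      h z ∈ supportedIn (closedBall (0 : R2 n) m) := by
    refine isCompact_univ.induction_on (p := fun s => ∃ m : ℕ, ∀ z ∈ s,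
      h z ∈ supportedIn (closedBall (0 : R2 n) m)) ⟨0, fun z hz => hz.elim⟩ ?_ ?_ ?_
    · rintro s t hst ⟨m, h1⟩
      exact ⟨m, fun z hz => h1 z (hst hz)⟩
    · rintro s t ⟨m, h1⟩ ⟨m', h2⟩
      refine ⟨max m m', fun z hz x hx => ?_⟩
      rcases hz with hz | hz
      · refine h1 z hz x fun h3 => hx (closedBall_subset_closedBall ?_ h3)
        exact_mod_cast le_max_left _ _
      · refine h2 z hz x fun h3 => hx (closedBall_subset_closedBall ?_ h3)
        exact_mod_cast le_max_right _ _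
    · intro z _
      obtain ⟨m, h1⟩ := hh.ball z
      exact ⟨{w | h w ∈ supportedIn (closedBall (0 : R2 n) m)},
        mem_nhdsWithin_of_mem_nhds h1, m, fun w hw => hw⟩
  exact osc_path (θ := 1 / 2) (by norm_num) hR f g h (fun z => hm z trivial) (hh.l1 hp)
    (fun z => EnLe.osc hosc (hRe z trivial)) hf hg

end Pool.Agent.V5helper82.SB
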